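import Mathlib
import Pool.Agent.MP_d8b1b3_co.Had

/-!
Amicable and anti-amicable pairs of integer matrices, weights and patterns.
-/

set_option autoImplicit false

namespace Pool.Agent.MP_d8b1b3_co.H14

open Matrix
open scoped Kronecker

section

variable {I J : Type} [Fintype I] [Fintype J]

/-- amicable (`ε = 1`) or anti-amicable (`ε = -1`) pair -/
def Rel (ε : ℤ) (A B : Matrix I I ℤ) : Prop := A * Bᵀ = ε • (B * Aᵀ)

/-- the rows are orthogonal, of squared length `w` -/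
def Wt [DecidableEq I] (A : Matrix I I ℤ) (w : ℤ) : Prop := A * Aᵀ = w • (1 : Matrix I I ℤ)

lemma Rel.kron {ε δ η : ℤ} {A B : Matrix I I ℤ} {C D : Matrix J J ℤ} (h : Rel ε A B)
    (h' : Rel δ C D) (e : ε * δ = η) : Rel η (A ⊗ₖ C) (B ⊗ₖ D) := by
  have k1 : (B ⊗ₖ D)ᵀ = Bᵀ ⊗ₖ Dᵀ := by rw [← kroneckerMap_transpose]
  have k2 : (A ⊗ₖ C)ᵀ = Aᵀ ⊗ₖ Cᵀ := by rw [← kroneckerMap_transpose]
  unfold Rel at *
  rw [k1, k2, ← mul_kronecker_mul, ← mul_kronecker_mul, h, h', smul_kronecker, kronecker_smul,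
    smul_smul, e]

lemma Rel.add_left {ε : ℤ} {A A' B : Matrix I I ℤ} (h : Rel ε A B) (h' : Rel ε A' B) :
    Rel ε (A + A') B := by
  unfold Rel at *
  rw [Matrix.add_mul, h, h', transpose_add, Matrix.mul_add, smul_add]

lemma Rel.add_right {ε : ℤ} {A B B' : Matrix I I ℤ} (h : Rel ε A B) (h' : Rel ε A B') :
    Rel ε A (B + B') := by
  unfold Rel at *
  rw [transpose_add, Matrix.mul_add, h, h', Matrix.add_mul, smul_add]

lemma Rel.refl (A : Matrix I I ℤ) : Rel 1 A A := by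
  unfold Rel; rw [one_smul]

lemma Rel.symm₁ {A B : Matrix I I ℤ} (h : Rel 1 A B) : Rel 1 B A := by
  unfold Rel at *; rw [h, one_smul, one_smul]

lemma Rel.symm₂ {A B : Matrix I I ℤ} (h : Rel (-1) A B) : Rel (-1) B A := by
  unfold Rel at *; rw [h, smul_smul]; simp

lemma Rel.submatrix {ε : ℤ} {A B : Matrix I I ℤ} (h : Rel ε A B) (e : J ≃ I) :
    Rel ε (A.submatrix e e) (B.submatrix e e) := by
  unfold Rel at *
  rw [transpose_submatrix, transpose_submatrix, submatrix_mul_equiv, submatrix_mul_equiv, h]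
  rfl

variable [DecidableEq I] [DecidableEq J]

lemma Rel.one {ε : ℤ} {A : Matrix I I ℤ} (h : Aᵀ = ε • A) : Rel ε 1 A := by
  unfold Rel; rw [Matrix.one_mul, transpose_one, Matrix.mul_one, h]

lemma Rel.tr {ε : ℤ} {A : Matrix I I ℤ} (h : Rel ε 1 A) : Aᵀ = ε • A := by
  unfold Rel at h; rwa [Matrix.one_mul, transpose_one, Matrix.mul_one] at h

lemma Wt.one : Wt (1 : Matrix I I ℤ) 1 := by
  unfold Wt; simp

lemma Wt.kron {A : Matrix I I ℤ} {C : Matrix J J ℤ} {a c : ℤ} (h : Wt A a) (h' : Wt C c) :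
    Wt (A ⊗ₖ C) (a * c) := by
  have k2 : (A ⊗ₖ C)ᵀ = Aᵀ ⊗ₖ Cᵀ := by rw [← kroneckerMap_transpose]
  unfold Wt at *
  rw [k2, ← mul_kronecker_mul, h, h', smul_kronecker, kronecker_smul, one_kronecker_one, smul_smul]

lemma Wt.add {A B : Matrix I I ℤ} {a b : ℤ} (h : Wt A a) (h' : Wt B b) (r : Rel (-1) A B) :
    Wt (A + B) (a + b) := by
  unfold Wt Rel at *
  rw [transpose_add, Matrix.add_mul, Matrix.mul_add, Matrix.mul_add, h, h', r, add_smul]
  simp

lemma Wt.congr {A : Matrix I I ℤ} {a b : ℤ} (h : Wt A a) (e : a = b) : Wt A b := e ▸ h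

lemma Wt.submatrix {A : Matrix I I ℤ} {a : ℤ} (h : Wt A a) (e : J ≃ I) :
    Wt (A.submatrix e e) a := by
  unfold Wt at *
  rw [transpose_submatrix, submatrix_mul_equiv, h]
  ext i j
  simp only [Matrix.submatrix_apply, Matrix.smul_apply, Matrix.one_apply, e.injective.eq_iff]

lemma Rel.one_submatrix {ε : ℤ} {A : Matrix I I ℤ} (h : Rel ε 1 A) (e : J ≃ I) :
    Rel ε 1 (A.submatrix e e) := by
  have := h.submatrix e
  rwa [submatrix_one_equiv] at this

end

/-- `x` is bounded by `m` and has the parity of `m` -/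
def Dom (x m : ℤ) : Prop := |x| ≤ m ∧ Even (x - m)

lemma Dom.sq (x : ℤ) : Dom x (x ^ 2) := by
  refine ⟨?_, ?_⟩
  · rcases le_or_gt 0 x with h | h
    · rw [abs_of_nonneg h]; nlinarith [Int.le_self_sq x]
    · rw [abs_of_neg h]; nlinarith
  · have := Int.even_mul_pred_self x
    have e : x - x ^ 2 = -(x * (x - 1)) := by ring
    rw [e]; exact this.neg

lemma Dom.add {x y m n : ℤ} (h : Dom x m) (h' : Dom y n) : Dom (x + y) (m + n) := by
  refine ⟨(abs_add_le _ _).trans (add_le_add h.1 h'.1), ?_⟩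
  have e : x + y - (m + n) = (x - m) + (y - n) := by ring
  rw [e]; exact h.2.add h'.2

lemma Dom.sum {ι : Type} (s : Finset ι) {f m : ι → ℤ} (h : ∀ i, Dom (f i) (m i)) :
    Dom (∑ i ∈ s, f i) (∑ i ∈ s, m i) := by
  classical
  induction s using Finset.induction_on with
  | empty => simp [Dom]
  | insert a s ha ih => rw [Finset.sum_insert ha, Finset.sum_insert ha]; exact (h a).add ih

lemma Dom.mul_sign {x m e : ℤ} (h : Dom x m) (he : e = 1 ∨ e = -1) : Dom (x * e) m := by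
  rcases he with rfl | rfl
  · simpa using h
  · refine ⟨by simpa using h.1, ?_⟩
    have e : x * -1 - m = (x - m) - 2 * x := by ring
    rw [e]; exact h.2.sub (even_two_mul x)

lemma Dom.sign {x : ℤ} (h : Dom x 1) : x = 1 ∨ x = -1 := by
  obtain ⟨h1, k, hk⟩ := h
  rw [abs_le] at h1
  omega

lemma Dom.congr {x m n : ℤ} (h : Dom x m) (e : m = n) : Dom x n := e ▸ h

/-- the rotation by a right angle -/
def J2 : Matrix Bool Bool ℤ := fun i j => if i = j then 0 else if i = true then -1 else 1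

lemma J2_sq (i j : Bool) : J2 i j ^ 2 = if i = j then 0 else 1 := by
  cases i <;> cases j <;> simp [J2]

lemma H2_sq (i j : Bool) : H2 i j ^ 2 = 1 := by
  cases i <;> cases j <;> simp [H2]

lemma wt_J2 : Wt J2 1 := by
  unfold Wt; ext i j; cases i <;> cases j <;> simp [J2, Matrix.mul_apply]

lemma wt_H2 : Wt H2 2 := by
  unfold Wt; rw [H2_tr, H2_mul]

lemma rel_one_J2 : Rel (-1) 1 J2 := by
  apply Rel.one; ext i j; cases i <;> cases j <;> simp [J2]

lemma rel_one_H2 : Rel 1 1 H2 := by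
  apply Rel.one; rw [H2_tr, one_smul]

lemma rel_J2_H2 : Rel 1 J2 H2 := by
  unfold Rel; ext i j; cases i <;> cases j <;> simp [J2, H2, Matrix.mul_apply]

/-- a partial Hadamard matrix with `r` rows and `n` columns exists -/
def PH (r n : ℕ) : Prop :=
  ∃ H : Matrix (Fin r) (Fin n) ℤ, (∀ i j, H i j = 1 ∨ H i j = -1) ∧
    H * Hᵀ = (n : ℤ) • (1 : Matrix (Fin r) (Fin r) ℤ)

lemma PH.of_card {I J : Type} [Fintype I] [Fintype J] [DecidableEq I] {r n : ℕ}
    (H : Matrix I J ℤ) (h1 : ∀ i j, H i j = 1 ∨ H i j = -1)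
    (h2 : H * Hᵀ = (n : ℤ) • (1 : Matrix I I ℤ)) (hr : Fintype.card I = r)
    (hn : Fintype.card J = n) : PH r n := by
  let e : Fin r ≃ I := (Fintype.equivFinOfCardEq hr).symm
  let f : Fin n ≃ J := (Fintype.equivFinOfCardEq hn).symm
  refine ⟨H.submatrix e f, fun i j => h1 _ _, ?_⟩
  rw [transpose_submatrix, submatrix_mul_equiv, h2]
  ext i j
  simp only [Matrix.submatrix_apply, Matrix.smul_apply, Matrix.one_apply, e.injective.eq_iff]

end Pool.Agent.MP_d8b1b3_co.H14
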