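import Mathlib
import Pool.Agent.MP_d8b1b3_co.H14.Rel

/-!
From sequences of matrices to block circulant matrices.
-/

set_option autoImplicit false

namespace Pool.Agent.MP_d8b1b3_co.H14

open Matrix
open scoped Kronecker

variable {I : Type} {N : ℕ} [NeZero N]

/-- regular representation of matrices over the group ring of a cyclic group -/
def Phi (X : Matrix I I (AddMonoidAlgebra ℤ (ZMod N))) : Matrix (I × ZMod N) (I × ZMod N) ℤ :=
  Matrix.of fun p q => (X p.1 q.1).coeff (q.2 - p.2)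

lemma Phi_mul [Fintype I] (X Y : Matrix I I (AddMonoidAlgebra ℤ (ZMod N))) :
    Phi (X * Y) = Phi X * Phi Y := by
  ext ⟨i, z⟩ ⟨j, z'⟩
  simp only [Phi, Matrix.of_apply, Matrix.mul_apply, AddMonoidAlgebra.coeff_sum,
    Finsupp.finsetSum_apply, Fintype.sum_prod_type]
  refine Finset.sum_congr rfl fun k _ => ?_
  rw [AddMonoidAlgebra.coeff_mul_apply_left, Finsupp.sum_fintype _ _ (by simp),
    ← Equiv.sum_comp (Equiv.subRight z)]
  refine Finset.sum_congr rfl fun w _ => ?_
  simp only [Equiv.subRight_apply]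
  congr 2
  ring

lemma Phi_smul_one [DecidableEq I] (n : ℕ) :
    Phi (((n : ℕ) : AddMonoidAlgebra ℤ (ZMod N)) • (1 : Matrix I I (AddMonoidAlgebra ℤ (ZMod N)))) =
      (n : ℤ) • 1 := by
  ext ⟨i, z⟩ ⟨j, z'⟩
  simp only [Phi, Matrix.of_apply, Matrix.smul_apply, Matrix.one_apply, Prod.mk.injEq, smul_eq_mul,
    mul_ite, mul_one, mul_zero]
  by_cases hij : i = j
  · simp only [hij, if_true, true_and, AddMonoidAlgebra.natCast_def, AddMonoidAlgebra.coeff_single,
      Finsupp.single_apply]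
    by_cases hz : z = z'
    · simp [hz]
    · rw [if_neg hz, if_neg]
      intro hh
      apply hz
      linear_combination hh
  · simp [hij]

/-- the generator of the cyclic group -/
noncomputable def gu (N : ℕ) : AddMonoidAlgebra ℤ (ZMod N) := AddMonoidAlgebra.single 1 1

/-- the inverse of the generator -/
noncomputable def gv (N : ℕ) : AddMonoidAlgebra ℤ (ZMod N) := AddMonoidAlgebra.single (-1) 1

omit [NeZero N] in
lemma gu_gv : gu N * gv N = 1 := by
  rw [gu, gv, AddMonoidAlgebra.single_mul_single]; simp [AddMonoidAlgebra.one_def]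

/-- the block circulant matrix of a sequence -/
def per (N : ℕ) (Q : ℕ → Matrix I I ℤ) : Matrix (I × ZMod N) (I × ZMod N) ℤ :=
  Matrix.of fun p q => Q (q.2 - p.2).val p.1 q.1

lemma ev_single (Q : ℕ → Matrix I I ℤ) (a : ZMod N) (i k : I) :
    ev Q N (AddMonoidAlgebra.single a (1 : ℤ)) i k =
      ∑ x : ZMod N, AddMonoidAlgebra.single (x * a) (Q x.val i k) := by
  have hc : ∀ z : ℤ, ((z : ℤ) : AddMonoidAlgebra ℤ (ZMod N)) = AddMonoidAlgebra.single 0 z := by
    intro z
    rw [AddMonoidAlgebra.intCast_def]; simp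
  rw [ev_apply, ← sum_zmod]
  apply Finset.sum_congr rfl
  intro x _
  rw [hc, AddMonoidAlgebra.single_pow, AddMonoidAlgebra.single_mul_single]
  simp

lemma Phi_u (Q : ℕ → Matrix I I ℤ) : Phi (ev Q N (gu N)) = per N Q := by
  ext ⟨i, z⟩ ⟨j, z'⟩
  simp [Phi, per, gu, ev_single, AddMonoidAlgebra.coeff_sum, Finsupp.single_apply]

lemma Phi_v (Q : ℕ → Matrix I I ℤ) : Phi (ev Q N (gv N))ᵀ = (per N Q)ᵀ := by
  ext ⟨i, z⟩ ⟨j, z'⟩
  simp only [Phi, per, gv, ev_single, AddMonoidAlgebra.coeff_sum, Finsupp.single_apply,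
    Matrix.of_apply, transpose_apply, Finsupp.finsetSum_apply, AddMonoidAlgebra.coeff_single]
  rw [Finset.sum_eq_single (z - z')]
  · simp
  · intro y _ hy
    rw [if_neg]
    intro hh
    apply hy
    linear_combination -hh
  · simp

end Pool.Agent.MP_d8b1b3_co.H14
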