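import Mathlib
import Pool.Agent.MP_d8b1b3_co.H14.Rel

/-!
Blowing up a partial Hadamard matrix by the order of a Hadamard matrix.
-/

set_option autoImplicit false

namespace Pool.Agent.MP_d8b1b3_co.H14

open Matrix
open scoped Kronecker

lemma Rel.sum_right {I ι : Type} [Fintype I] {ε : ℤ} {A : Matrix I I ℤ} {B : ι → Matrix I I ℤ}
    (s : Finset ι) (h : ∀ i, Rel ε A (B i)) : Rel ε A (∑ i ∈ s, B i) := by
  unfold Rel at *
  rw [transpose_sum, Matrix.mul_sum, Matrix.sum_mul, Finset.smul_sum]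
  exact Finset.sum_congr rfl fun i _ => h i

lemma Rel.gram {I : Type} [Fintype I] {A B : Matrix I I ℤ} (r : Rel (-1) A B) :
    (A + B) * (A + B)ᵀ = A * Aᵀ + B * Bᵀ := by
  unfold Rel at r
  rw [transpose_add, Matrix.add_mul, Matrix.mul_add, Matrix.mul_add, r]
  simp

lemma normalized {Γ : Type} [Fintype Γ] [DecidableEq Γ] (hH : HadOn Γ) (o : Γ) :
    ∃ H : Matrix Γ Γ ℤ, (∀ i j, H i j = 1 ∨ H i j = -1) ∧ (∀ j, H o j = 1) ∧
      H * Hᵀ = (Fintype.card Γ : ℤ) • (1 : Matrix Γ Γ ℤ) ∧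
      Hᵀ * H = (Fintype.card Γ : ℤ) • (1 : Matrix Γ Γ ℤ) := by
  obtain ⟨H, h1, h2⟩ := hH
  have hs : ∀ j, H o j * H o j = 1 := fun j => by rcases h1 o j with h | h <;> simp [h]
  let H' : Matrix Γ Γ ℤ := Matrix.of fun i j => H i j * H o j
  have h3 : H' * H'ᵀ = (Fintype.card Γ : ℤ) • (1 : Matrix Γ Γ ℤ) := by
    rw [← h2]
    ext i k
    simp only [Matrix.mul_apply, transpose_apply, H', Matrix.of_apply]
    refine Finset.sum_congr rfl fun j _ => ?_
    linear_combination H i j * H k j * hs j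
  refine ⟨H', fun i j => ?_, hs, h3, ?_⟩
  · rcases h1 i j with h | h <;> rcases h1 o j with h' | h' <;> simp [H', h, h']
  · have hc : ((Fintype.card Γ : ℕ) : ℚ) ≠ 0 := by
      have : 0 < Fintype.card Γ := Fintype.card_pos_iff.2 ⟨o⟩
      positivity
    let Q : Matrix Γ Γ ℚ := H'.map (Int.cast : ℤ → ℚ)
    have h4 : Q * (((Fintype.card Γ : ℕ) : ℚ)⁻¹ • Qᵀ) = 1 := by
      ext i k
      have := congrFun (congrFun h3 i) k
      simp only [Matrix.mul_apply, transpose_apply, Matrix.smul_apply, Matrix.one_apply,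
        smul_eq_mul] at this
      have h5 : (∑ j, Q i j * Q k j) = (Fintype.card Γ : ℚ) * if i = k then 1 else 0 := by
        simp only [Q, Matrix.map_apply]
        exact_mod_cast this
      rw [Matrix.mul_smul, Matrix.smul_apply, Matrix.mul_apply]
      simp only [transpose_apply, h5, smul_eq_mul, Matrix.one_apply]
      field_simp
    have h6 := mul_eq_one_comm.1 h4
    ext i k
    have := congrFun (congrFun h6 i) k
    rw [Matrix.smul_mul, Matrix.smul_apply, Matrix.mul_apply, smul_eq_mul,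
      inv_mul_eq_iff_eq_mul₀ hc] at this
    simp only [transpose_apply, Q, Matrix.map_apply, Matrix.one_apply] at this
    simp only [Matrix.mul_apply, transpose_apply, Matrix.smul_apply, Matrix.one_apply, smul_eq_mul]
    exact_mod_cast this

theorem star {K C : Type} [Fintype K] [DecidableEq K] [Fintype C] [DecidableEq C]
    (hH : HadOn (Option C)) (S : Matrix K K ℤ) (F : Option C → Matrix K K ℤ) {σ u0 u : ℤ}
    (hp : ∀ x y, ∃ m0 : ℤ, ∃ m : Option C → ℤ, Dom (S x y) m0 ∧ (∀ χ, Dom (F χ x y) (m χ)) ∧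
      m0 + ∑ χ, m χ = 1)
    (wS : Wt S σ) (w0 : Wt (F none) u0) (w : ∀ k, Wt (F (some k)) u)
    (rel : ∀ χ, Rel (-1) S (F χ)) {g n e r : ℕ} (hg : Fintype.card (Option C) = g)
    (h1 : (n : ℤ) = 4 * σ + g ^ 2 * u) (h2 : σ * (g - 4) + g * (u0 - u) + e = 0)
    (h3 : n = g * Fintype.card K + e) (hr : r ≤ Fintype.card K) (hY : PH r e) :
    PH (g * r) n := by
  obtain ⟨H, k1, k2, k3, k4⟩ := normalized hH none
  rw [hg] at k3 k4
  let P : Option C → Matrix (Option C) (Option C) ℤ := fun χ => vecMulVec (H χ) (H χ)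
  let B : Matrix (Option C) (Option C) ℤ := P none - (2 : ℤ) • 1
  have Pt : ∀ χ, (P χ)ᵀ = P χ := fun χ => by
    ext a b; simp [P, vecMulVec_apply, mul_comm]
  have Bt : Bᵀ = B := by simp [B, Pt]
  have PP : ∀ χ χ', P χ * P χ' = if χ = χ' then (g : ℤ) • P χ else 0 := fun χ χ' => by
    ext a b
    have := congrFun (congrFun k3 χ) χ'
    simp only [Matrix.mul_apply, transpose_apply, Matrix.smul_apply, Matrix.one_apply,
      smul_eq_mul] at this
    have e1 : (P χ * P χ') a b = H χ a * H χ' b * ∑ j, H χ j * H χ' j := by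
      simp only [Matrix.mul_apply, P, vecMulVec_apply, Finset.mul_sum]
      exact Finset.sum_congr rfl fun j _ => by ring
    rw [e1, this]
    split_ifs with h
    · subst h; simp [P, vecMulVec_apply]; ring
    · simp
  have PS : ∑ χ, P χ = (g : ℤ) • (1 : Matrix (Option C) (Option C) ℤ) := by
    rw [← k4]
    ext a b
    simp [P, Matrix.sum_apply, vecMulVec_apply, Matrix.mul_apply]
  have BP : ∀ χ, Rel 1 B (P χ) := fun χ => by
    unfold Rel
    rw [Pt, Bt, one_smul]
    simp only [B, Matrix.sub_mul, Matrix.mul_sub, PP, Matrix.smul_mul, Matrix.mul_smul,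
      Matrix.one_mul, Matrix.mul_one]
    by_cases h : χ = none
    · subst h; rfl
    · rw [if_neg h, if_neg (Ne.symm h)]
  have BB : B * Bᵀ = ((g : ℤ) - 4) • P none + (4 : ℤ) • 1 := by
    rw [Bt]
    simp only [B, Matrix.sub_mul, Matrix.mul_sub, PP, Matrix.smul_mul, Matrix.mul_smul,
      Matrix.one_mul, Matrix.mul_one, if_true]
    module
  let W : Matrix (K × Option C) (K × Option C) ℤ := S ⊗ₖ B + ∑ χ, F χ ⊗ₖ P χ
  have kt : ∀ (X : Matrix K K ℤ) (Y : Matrix (Option C) (Option C) ℤ), (X ⊗ₖ Y)ᵀ = Xᵀ ⊗ₖ Yᵀ :=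
    fun X Y => by rw [← kroneckerMap_transpose]
  have wF : ∀ χ, F χ * (F χ)ᵀ = (u + if χ = none then u0 - u else 0) • (1 : Matrix K K ℤ) := by
    rintro (_ | k)
    · rw [if_pos rfl, add_sub_cancel]; exact w0
    · rw [if_neg (Option.some_ne_none k), add_zero]; exact w k
  have gram : W * Wᵀ = (n : ℤ) • (1 : Matrix (K × Option C) (K × Option C) ℤ) -
      (e : ℤ) • ((1 : Matrix K K ℤ) ⊗ₖ P none) := by
    have e1 : (∑ χ, F χ ⊗ₖ P χ) * (∑ χ, F χ ⊗ₖ P χ)ᵀ =
        ∑ χ, ((u + if χ = none then u0 - u else 0) * g) • ((1 : Matrix K K ℤ) ⊗ₖ P χ) := by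
      rw [transpose_sum, Matrix.sum_mul]
      refine Finset.sum_congr rfl fun χ _ => ?_
      rw [Matrix.mul_sum, Finset.sum_eq_single χ]
      · rw [kt, ← mul_kronecker_mul, Pt, PP, if_pos rfl, wF, smul_kronecker, kronecker_smul,
          smul_smul]
      · intro χ' _ h
        rw [kt, ← mul_kronecker_mul, Pt, PP, if_neg (Ne.symm h), kronecker_zero]
      · simp
    have e2 : ∑ χ, (1 : Matrix K K ℤ) ⊗ₖ P χ =
        (g : ℤ) • (1 : Matrix (K × Option C) (K × Option C) ℤ) := by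
      rw [← one_kronecker_one, ← kronecker_smul, ← PS]
      ext ⟨x, a⟩ ⟨y, b⟩
      simp only [Matrix.sum_apply, kronecker_apply, Finset.mul_sum]
    rw [(Rel.sum_right _ fun χ => (rel χ).kron (BP χ) (by ring)).gram, e1, kt,
      ← mul_kronecker_mul, wS, BB]
    simp only [add_mul, add_smul, Finset.sum_add_distrib, ← Finset.smul_sum, e2, ite_mul, zero_mul,
      ite_smul, zero_smul, Finset.sum_ite_eq', Finset.mem_univ, if_true]
    rw [smul_kronecker, kronecker_add, kronecker_smul, kronecker_smul, one_kronecker_one, h1,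
      show (e : ℤ) = -(σ * (g - 4) + g * (u0 - u)) by linear_combination h2]
    module
  have Ps : ∀ χ a b, P χ a b = 1 ∨ P χ a b = -1 := fun χ a b => by
    rcases k1 χ a with h | h <;> rcases k1 χ b with h' | h' <;> simp [P, vecMulVec_apply, h, h']
  have P0 : ∀ a b, P none a b = 1 := fun a b => by simp [P, vecMulVec_apply, k2]
  have Ws : ∀ p q, W p q = 1 ∨ W p q = -1 := by
    rintro ⟨x, a⟩ ⟨y, b⟩
    obtain ⟨m0, m, d1, d2, d3⟩ := hp x y
    have Bs : B a b = 1 ∨ B a b = -1 := by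
      simp only [B, Matrix.sub_apply, Matrix.smul_apply, P0, Matrix.one_apply]
      split_ifs <;> simp
    apply Dom.sign
    rw [← d3]
    simp only [W, Matrix.add_apply, Matrix.sum_apply, kronecker_apply]
    exact (d1.mul_sign Bs).add (Dom.sum _ fun χ => (d2 χ).mul_sign (Ps χ a b))
  obtain ⟨Y, y1, y2⟩ := hY
  obtain ⟨ι⟩ : Nonempty (Fin r ↪ K) := Function.Embedding.nonempty_of_card_le (by simpa using hr)
  let M : Matrix (Fin r × Option C) ((K × Option C) ⊕ Fin e) ℤ :=
    Matrix.of fun p => Sum.elim (W (ι p.1, p.2)) (Y p.1)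
  refine PH.of_card M ?_ ?_ (by simp only [Fintype.card_prod, Fintype.card_fin, hg]; ring)
    (by simp only [Fintype.card_sum, Fintype.card_prod, Fintype.card_fin, hg, h3]; ring)
  · rintro p (q | j)
    · exact Ws _ _
    · exact y1 _ _
  · ext ⟨i, a⟩ ⟨j, b⟩
    have e1 := congrFun (congrFun gram (ι i, a)) (ι j, b)
    have e2 := congrFun (congrFun y2 i) j
    simp only [Matrix.mul_apply, transpose_apply] at e1 e2
    simp only [Matrix.mul_apply, transpose_apply, Fintype.sum_sum_type, M, Matrix.of_apply, Sum.elim_inl,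
      Sum.elim_inr, e1, e2, Matrix.sub_apply, Matrix.smul_apply, kronecker_apply, P0,
      Matrix.one_apply, Prod.mk.injEq, ι.injective.eq_iff, smul_eq_mul]
    ring

end Pool.Agent.MP_d8b1b3_co.H14
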