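import Mathlib
import Pool.Agent.MP_d8b1b3_co.H14.Per
import Pool.Agent.MP_d8b1b3_co.H14.Star

/-!
Amicable symmetric and skew block circulant matrices with prescribed bands as supports.
-/

set_option autoImplicit false

namespace Pool.Agent.MP_d8b1b3_co.H14

open Matrix
open scoped Kronecker

/-- membership in two intervals placed symmetrically in `[0, L)` -/
def InA (L o l s : ℕ) : Prop := (o ≤ s ∧ s < o + l) ∨ (L ≤ s + o + l ∧ s + o < L)

structure Ann {I : Type} [Fintype I] [DecidableEq I] (c : I → Bool) (L o l : ℕ)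
    (A : ℕ → Matrix I I ℤ) : Prop where
  ok : ∀ s, s < L → InA L o l s → OK c (A s)
  zero : ∀ s, s < L → ¬ InA L o l s → A s = 0
  pu : PU A L (4 * l)

lemma annulus {I : Type} [Fintype I] [DecidableEq I] {c : I → Bool} {l : ℕ}
    {M K : ℕ → Matrix I I ℤ} (hM : Good c l M) (hK : Good c 1 K) {o L : ℕ}
    (h : 2 * (o + l) ≤ L) : ∃ A, Ann c L o l A := by
  obtain ⟨d, rfl⟩ : ∃ d, L = o + (l + (d + (l + o))) := ⟨L - 2 * (o + l), by omega⟩
  have hK0 := hK.ok 0 one_pos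
  refine ⟨cat o (fun _ => 0) (cat l (fun s => M s * E c false * K 0) (cat d (fun _ => 0)
    (cat l (fun s => M s * E c true * K 0) (fun _ => 0)))), ?_, ?_, ?_⟩
  · intro s hs hin
    unfold InA at hin
    simp only [cat]
    rw [if_neg (by omega)]
    by_cases h1 : s - o < l
    · rw [if_pos h1]; exact (hM.ok _ h1).mul hK0 _
    · rw [if_neg h1, if_neg (by omega), if_pos (by omega)]
      exact (hM.ok _ (by omega)).mul hK0 _
  · intro s hs hin
    unfold InA at hin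
    simp only [cat]
    split_ifs <;> first | rfl | omega
  · intro R _ u v huv
    have hK' := hK.pu R 1 1 (by simp)
    have e1 : ev K 1 (1 : R) = cst R (K 0) := by simp [ev]
    rw [e1] at hK'
    have key : ∀ w : R, ev (cat o (fun _ => 0) (cat l (fun s => M s * E c false * K 0)
        (cat d (fun _ => 0) (cat l (fun s => M s * E c true * K 0) (fun _ => 0)))))
        (o + (l + (d + (l + o)))) w =
        w ^ o • (ev M l w * (cst R (E c false) + w ^ (l + d) • cst R (E c true)) *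
          cst R (K 0)) := by
      intro w
      simp only [ev_cat, ev_zero, zero_add, ev_mul_right, smul_smul, Matrix.mul_add,
        Matrix.add_mul, Matrix.mul_smul, Matrix.smul_mul, pow_add, smul_zero, add_zero]
    rw [key, key]
    have := (((hM.pu R u v huv).mul (adj_E c (pow_mul_pow_eq_one huv (l + d)))).mul hK').smul
      (pow_mul_pow_eq_one huv o)
    convert this using 1
    push_cast; ring

/-- two amicable paraunitary sequences -/
def Ami {I : Type} [Fintype I] [DecidableEq I] (L a b : ℕ) (A B : ℕ → Matrix I I ℤ) : Prop :=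
  PU A L a ∧ PU B L b ∧ ∀ (R : Type) [CommRing R] (u v : R), u * v = 1 →
    ev A L u * (ev B L v)ᵀ = ev B L u * (ev A L v)ᵀ ∧
      (ev A L v)ᵀ * ev B L u = (ev B L v)ᵀ * ev A L u

lemma ami_blocks {I : Type} [Fintype I] [DecidableEq I] {R : Type} [CommRing R]
    {a a' b b' : Matrix I I R} {n m k k' : R}
    (ha : Adj a a' n) (hb : Adj b b' m) (hk : k * k' = 1)
    (h1 : a * b = b * a) (h2 : a'ᵀ * b'ᵀ = b'ᵀ * a'ᵀ) (h3 : a'ᵀ * b = b * a'ᵀ)
    (h4 : b'ᵀ * a = a * b'ᵀ) :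
    Adj (fromBlocks a 0 0 (k • a'ᵀ)) (fromBlocks a' 0 0 (k' • aᵀ)) n ∧
    Adj (fromBlocks 0 b (k • b'ᵀ) 0) (fromBlocks 0 b' (k' • bᵀ) 0) m ∧
    fromBlocks a 0 0 (k • a'ᵀ) * (fromBlocks 0 b' (k' • bᵀ) 0)ᵀ =
      fromBlocks 0 b (k • b'ᵀ) 0 * (fromBlocks a' 0 0 (k' • aᵀ))ᵀ ∧
    (fromBlocks a' 0 0 (k' • aᵀ))ᵀ * fromBlocks 0 b (k • b'ᵀ) 0 =
      (fromBlocks 0 b' (k' • bᵀ) 0)ᵀ * fromBlocks a 0 0 (k • a'ᵀ) := by
  have hk' : k' * k = 1 := by rw [mul_comm, hk]
  refine ⟨⟨?_, ?_⟩, ⟨?_, ?_⟩, ?_, ?_⟩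
  all_goals
    simp only [fromBlocks_transpose, fromBlocks_multiply, ← fromBlocks_one, fromBlocks_smul,
      Matrix.transpose_smul, Matrix.transpose_transpose, Matrix.transpose_zero, Matrix.mul_zero,
      Matrix.zero_mul, Matrix.mul_smul, Matrix.smul_mul, smul_smul, add_zero, zero_add,
      ← mul_assoc, hk, hk', one_mul, one_smul, ha.1, ha.2, hb.1, hb.2, h1, h2, h3, h4, smul_zero]

lemma ami_sum {I J : Type} [Fintype I] [DecidableEq I] [Fintype J] [DecidableEq J]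
    {A : ℕ → Matrix I I ℤ} {B : ℕ → Matrix J J ℤ} {L n m : ℕ} (hA : PU A L n) (hB : PU B L m) :
    Ami L n m
      (fun s => fromBlocks (A s ⊗ₖ (1 : Matrix J J ℤ)) 0 0
        (rev L (fun s => A s ⊗ₖ (1 : Matrix J J ℤ)) s))
      (fun s => fromBlocks 0 ((1 : Matrix I I ℤ) ⊗ₖ B s)
        (rev L (fun s => (1 : Matrix I I ℤ) ⊗ₖ B s) s) 0) := by
  have key : ∀ (R : Type) [CommRing R] (u v : R), u * v = 1 → _ := fun R _ u v huv =>
    ami_blocks ((hA R u v huv).kron_left (J := J)) ((hB R u v huv).kron_right (J := I))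
      (k := u ^ L * v) (k' := v ^ L * u) (by
        calc (u ^ L * v) * (v ^ L * u) = (u ^ L * v ^ L) * (u * v) := by ring
          _ = 1 := by rw [pow_mul_pow_eq_one huv, huv, one_mul])
      (by simp [← mul_kronecker_mul]) (by simp [kron_tr, ← mul_kronecker_mul])
      (by simp [kron_tr, ← mul_kronecker_mul]) (by simp [kron_tr, ← mul_kronecker_mul])
  refine ⟨fun R _ u v huv => ?_, fun R _ u v huv => ?_, fun R _ u v huv => ?_⟩
  all_goals
    have hvu : v * u = 1 := by rw [mul_comm, huv]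
    simp only [ev_fromBlocks, ev_rev L _ huv, ev_rev L _ hvu, ev_zero, ev_kron_left, ev_kron_right]
  · exact (key R u v huv).1
  · exact (key R u v huv).2.1
  · exact (key R u v huv).2.2

lemma Ami.submatrix {I J : Type} [Fintype I] [DecidableEq I] [Fintype J] [DecidableEq J]
    {A B : ℕ → Matrix I I ℤ} {L n m : ℕ} (h : Ami L n m A B) (e : J ≃ I) :
    Ami L n m (fun s => (A s).submatrix e e) (fun s => (B s).submatrix e e) := by
  refine ⟨fun R _ u v huv => ?_, fun R _ u v huv => ?_, fun R _ u v huv => ?_⟩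
  all_goals simp only [ev_submatrix]
  · exact (h.1 R u v huv).submatrix e
  · exact (h.2.1 R u v huv).submatrix e
  · simp only [transpose_submatrix, submatrix_mul_equiv, (h.2.2 R u v huv).1, (h.2.2 R u v huv).2,
      and_self]

lemma Ami.mul {I : Type} [Fintype I] [DecidableEq I] {A B : ℕ → Matrix I I ℤ} {L n m f : ℕ}
    (h : Ami L n m A B) {H : Matrix I I ℤ} (h1 : H * Hᵀ = (f : ℤ) • 1) (h2 : Hᵀ * H = (f : ℤ) • 1) :
    Ami L (n * f) (m * f) (fun s => A s * H) (fun s => B s * H) := by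
  have key : ∀ (R : Type) [CommRing R], Adj (cst R H) (cst R H) (f : R) := fun R _ => by
    have e : cst R ((f : ℤ) • (1 : Matrix I I ℤ)) = (f : R) • 1 := by
      ext i j
      simp only [cst, Matrix.map_apply, Matrix.smul_apply, Matrix.one_apply, smul_eq_mul]
      split_ifs <;> simp
    constructor <;> rw [← cst_transpose, ← cst_mul]
    · rw [h1, e]
    · rw [h2, e]
  refine ⟨fun R _ u v huv => ?_, fun R _ u v huv => ?_, fun R _ u v huv => ?_⟩
  all_goals simp only [ev_mul_right]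
  · rw [Nat.cast_mul]; exact (h.1 R u v huv).mul (key R)
  · rw [Nat.cast_mul]; exact (h.2.1 R u v huv).mul (key R)
  · constructor
    · rw [transpose_mul, transpose_mul, Matrix.mul_assoc, Matrix.mul_assoc,
        ← Matrix.mul_assoc (cst R H), ← Matrix.mul_assoc (cst R H), (key R).1, Matrix.smul_mul,
        Matrix.smul_mul, Matrix.mul_smul, Matrix.mul_smul, Matrix.one_mul, Matrix.one_mul,
        (h.2.2 R u v huv).1]
    · rw [transpose_mul, transpose_mul, Matrix.mul_assoc, Matrix.mul_assoc,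
        ← Matrix.mul_assoc (ev A L v)ᵀ, ← Matrix.mul_assoc (ev B L v)ᵀ, (h.2.2 R u v huv).2]

lemma Ami.shift {I : Type} [Fintype I] [DecidableEq I] {A B : ℕ → Matrix I I ℤ} {L n m : ℕ}
    (h : Ami L n m A B) : Ami (2 * L + 1) n m (cat 1 (fun _ => 0) (cat L A fun _ => 0))
      (cat 1 (fun _ => 0) (cat L B fun _ => 0)) := by
  rw [show 2 * L + 1 = 1 + (L + L) by ring]
  refine ⟨fun R _ u v huv => ?_, fun R _ u v huv => ?_, fun R _ u v huv => ?_⟩
  all_goals simp only [ev_cat, ev_zero, smul_zero, add_zero, zero_add, pow_one]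
  · exact (h.1 R u v huv).smul huv
  · exact (h.2.1 R u v huv).smul huv
  · simp only [transpose_smul, Matrix.smul_mul, Matrix.mul_smul, (h.2.2 R u v huv).1,
      (h.2.2 R u v huv).2, and_self]

lemma OK.full {F : Type} [Fintype F] [DecidableEq F] {A : Matrix (Bool × F) (Bool × F) ℤ}
    (h : OK Prod.fst A) {H : Matrix F F ℤ} (hH : ∀ i j, H i j = 1 ∨ H i j = -1) (p q : Bool × F) :
    (A * ((1 : Matrix Bool Bool ℤ) ⊗ₖ H)) p q ^ 2 = 1 := by
  obtain ⟨j, ε, hε, hj, hA⟩ := h.1 p q.1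
  rw [Matrix.mul_apply, Finset.sum_eq_single j]
  · rw [hA j hj, if_pos rfl, kronecker_apply, hj, Matrix.one_apply_eq]
    rcases hε with rfl | rfl <;> rcases hH j.2 q.2 with h | h <;> simp [h]
  · intro j' _ hj'
    by_cases hc : j'.1 = q.1
    · rw [hA j' hc, if_neg hj', zero_mul]
    · rw [kronecker_apply, Matrix.one_apply_ne hc, zero_mul, mul_zero]
  · simp

/-- a good sequence whose colour classes are copies of `K` -/
def GK (K : Type) [Fintype K] [DecidableEq K] (l : ℕ) : Prop :=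
  ∃ M, Good (I := Bool × K) Prod.fst l M

/-- full blocks on the two intervals, zero blocks elsewhere -/
def Pat {I : Type} (L o l : ℕ) (A : ℕ → Matrix I I ℤ) : Prop :=
  ∀ s, s < L → ∀ p q, (InA L o l s → A s p q ^ 2 = 1) ∧ (¬ InA L o l s → A s p q = 0)

lemma InA.rev {L o l s : ℕ} (hs : s < L) : InA L o l (L - 1 - s) ↔ InA L o l s := by
  unfold InA; omega

lemma pair {K₁ K₂ F : Type} [Fintype K₁] [DecidableEq K₁] [Fintype K₂] [DecidableEq K₂]
    [Fintype F] [DecidableEq F] [Nonempty F] (hH : HadOn F) {f : ℕ} (hf : Fintype.card F = f)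
    (hK : f = 4 * Fintype.card K₁ * Fintype.card K₂)
    {L o l o' l' : ℕ} (h : 2 * (o + l) ≤ L) (h' : 2 * (o' + l') ≤ L)
    (g1 : GK K₁ l) (g1' : GK K₁ 1) (g2 : GK K₂ l') (g2' : GK K₂ 1) :
    ∃ A B : ℕ → Matrix (Bool × F) (Bool × F) ℤ,
      Ami L (4 * l * f) (4 * l' * f) A B ∧ Pat L o l A ∧ Pat L o' l' B := by
  let e₀ : F ≃ Bool × Bool × K₁ × K₂ := Fintype.equivOfCardEq (by
    simp only [Fintype.card_prod, Fintype.card_bool, hf, hK]; ring)
  let e := (Equiv.prodCongr (Equiv.refl Bool) e₀).trans (sumEquiv K₁ K₂)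
  obtain ⟨M₁, m1⟩ := g1
  obtain ⟨N₁, n1⟩ := g1'
  obtain ⟨M₂, m2⟩ := g2
  obtain ⟨N₂, n2⟩ := g2'
  obtain ⟨A, hA⟩ := annulus m1 n1 h
  obtain ⟨B, hB⟩ := annulus m2 n2 h'
  obtain ⟨H, k1, -, k3, k4⟩ := normalized hH (Classical.arbitrary _)
  rw [hf] at k3 k4
  have hc : (fun j => Sum.elim (fun p : (Bool × K₁) × (Bool × K₂) => xor p.1.1 p.2.1)
      (fun p : (Bool × K₁) × (Bool × K₂) => xor p.1.1 p.2.1) (e j)) = Prod.fst := by
    funext ⟨a, x⟩
    simp only [e, Equiv.trans_apply, Equiv.prodCongr_apply, Equiv.coe_refl, Prod.map_apply, id]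
    obtain ⟨b, c, k, l⟩ := e₀ x
    cases a <;> cases b <;> cases c <;> simp [sumEquiv]
  refine ⟨_, _, ((ami_sum hA.pu hB.pu).submatrix e).mul
    (H := (1 : Matrix Bool Bool ℤ) ⊗ₖ H) ?_ ?_, ?_, ?_⟩
  · rw [← kroneckerMap_transpose, ← mul_kronecker_mul, k3, kronecker_smul]; simp
  · rw [← kroneckerMap_transpose, ← mul_kronecker_mul, k4, kronecker_smul]; simp
  · intro s hs p q
    refine ⟨fun hin => ?_, fun hin => ?_⟩
    · refine OK.full ?_ k1 p q
      rw [← hc]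
      exact (((hA.ok s hs hin).kron_left _).diag
        ((hA.ok _ (by omega) ((InA.rev hs).2 hin)).kron_left _).transpose).submatrix _
    · simp [rev, hA.zero s hs hin, hA.zero _ (by omega) (mt (InA.rev hs).1 hin)]
  · intro s hs p q
    refine ⟨fun hin => ?_, fun hin => ?_⟩
    · refine OK.full ?_ k1 p q
      rw [← hc]
      exact (((hB.ok s hs hin).kron_right _).anti
        ((hB.ok _ (by omega) ((InA.rev hs).2 hin)).kron_right _).transpose).submatrix _
    · simp [rev, hB.zero s hs hin, hB.zero _ (by omega) (mt (InA.rev hs).1 hin)]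

/-- a rank one nilpotent sign matrix -/
def UV : Matrix Bool Bool ℤ := Matrix.of fun _ j => if j = true then -1 else 1

lemma UV_sq : UV * UV = 0 := by
  ext i j; simp [UV, Matrix.mul_apply]

lemma UV_sq' : UVᵀ * UVᵀ = 0 := by
  rw [← transpose_mul, UV_sq, transpose_zero]

lemma UV_sum : UV * UVᵀ + UVᵀ * UV = (4 : ℤ) • (1 : Matrix Bool Bool ℤ) := by
  ext i j; cases i <;> cases j <;> simp [UV, Matrix.mul_apply]

/-- symmetric or skew doubling -/
def dbl {I : Type} (ε : ℤ) (A : Matrix I I ℤ) : Matrix (Bool × I) (Bool × I) ℤ :=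
  UV ⊗ₖ A + ε • (UVᵀ ⊗ₖ Aᵀ)

lemma dbl_tr {I : Type} (ε : ℤ) (A : Matrix I I ℤ) :
    (dbl ε A)ᵀ = UVᵀ ⊗ₖ Aᵀ + ε • (UV ⊗ₖ A) := by
  ext ⟨a, i⟩ ⟨b, j⟩; simp [dbl]

lemma dbl_mul {I : Type} [Fintype I] (ε η : ℤ) (A B : Matrix I I ℤ) :
    dbl ε A * (dbl η B)ᵀ = (UV * UVᵀ) ⊗ₖ (A * Bᵀ) + (ε * η) • ((UVᵀ * UV) ⊗ₖ (Aᵀ * B)) := by
  rw [dbl_tr, dbl]
  simp only [Matrix.add_mul, Matrix.mul_add, Matrix.smul_mul, Matrix.mul_smul,
    ← mul_kronecker_mul, UV_sq, UV_sq', zero_kronecker, smul_zero, add_zero, zero_add, smul_smul,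
    mul_comm η ε]

lemma dbl_rel {I : Type} [Fintype I] (ε η : ℤ) {A B : Matrix I I ℤ} (h1 : A * Bᵀ = B * Aᵀ)
    (h2 : Aᵀ * B = Bᵀ * A) : Rel 1 (dbl ε A) (dbl η B) := by
  unfold Rel; rw [dbl_mul, dbl_mul, h1, h2, one_smul, mul_comm ε η]

lemma dbl_wt {I : Type} [Fintype I] [DecidableEq I] {ε w : ℤ} (hε : ε * ε = 1) {A : Matrix I I ℤ}
    (h1 : A * Aᵀ = w • 1) (h2 : Aᵀ * A = w • 1) : Wt (dbl ε A) (4 * w) := by
  unfold Wt
  rw [dbl_mul, h1, h2, hε, one_smul, ← add_kronecker, UV_sum, smul_kronecker, kronecker_smul,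
    one_kronecker_one, smul_smul]

lemma dbl_one {I : Type} [Fintype I] [DecidableEq I] {ε : ℤ} (hε : ε * ε = 1) (A : Matrix I I ℤ) :
    Rel ε 1 (dbl ε A) := by
  apply Rel.one
  rw [dbl_tr, dbl, smul_add, smul_smul, hε, one_smul, add_comm]

/-- distance to the nearest of the four ends -/
def rad (L : ℕ) (δ : ZMod (2 * L + 1)) : ℕ :=
  if δ.val = 0 then L else
    min (min δ.val (2 * L + 1 - δ.val) - 1) (L - min δ.val (2 * L + 1 - δ.val))

lemma rad_zero (L : ℕ) : rad L 0 = L := by simp [rad]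

lemma rad_lt {L : ℕ} {δ : ZMod (2 * L + 1)} (h : δ ≠ 0) : 2 * rad L δ < L := by
  have h1 : δ.val ≠ 0 := fun h' => h ((ZMod.val_eq_zero δ).1 h')
  have h2 := ZMod.val_lt δ
  rw [rad, if_neg h1]; omega

/-- indicator of an interval -/
def ind (x o l : ℕ) : ℤ := if o ≤ x ∧ x < o + l then 1 else 0

lemma dbl_pat {I : Type} {L o l : ℕ} (h : 2 * (o + l) ≤ L) {A : ℕ → Matrix I I ℤ}
    (hA : Pat L o l A) {ε : ℤ} (hε : ε * ε = 1) (p q : Bool × I × ZMod (2 * L + 1)) :
    dbl ε (per (2 * L + 1) (cat 1 (fun _ => 0) (cat L A fun _ => 0))) p q ^ 2 =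
      ind (rad L (q.2.2 - p.2.2)) o l := by
  obtain ⟨a, i, z⟩ := p
  obtain ⟨b, j, z'⟩ := q
  have e1 : (z - z').val = if (z' - z).val = 0 then 0 else 2 * L + 1 - (z' - z).val := by
    rw [← neg_sub z' z, ZMod.neg_val]
    simp only [ZMod.val_eq_zero]
  have e2 := ZMod.val_lt (z' - z)
  have u1 : UV a b ^ 2 = 1 := by cases b <;> simp [UV]
  have u2 : UV b a ^ 2 = 1 := by cases a <;> simp [UV]
  simp only [dbl, per, Matrix.add_apply, Matrix.smul_apply, kronecker_apply, transpose_apply,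
    Matrix.of_apply, e1, rad, ind, smul_eq_mul]
  generalize (z' - z).val = d at *
  by_cases h0 : d = 0
  · subst h0
    simp only [cat, if_true, zero_lt_one, Matrix.zero_apply]
    rw [if_neg (by omega)]; simp
  rw [if_neg h0, if_neg h0]
  by_cases h1 : d ≤ L
  · have c1 : cat 1 (fun _ => 0) (cat L A fun _ => 0) d = A (d - 1) := by
      simp only [cat]; rw [if_neg (by omega), if_pos (by omega)]
    have c2 : cat 1 (fun _ => 0) (cat L A fun _ => 0) (2 * L + 1 - d) = 0 := by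
      simp only [cat]; rw [if_neg (by omega), if_neg (by omega)]
    rw [c1, c2, Matrix.zero_apply, mul_zero, mul_zero, add_zero, mul_pow, u1, one_mul]
    have := hA (d - 1) (by omega) i j
    split_ifs with h2
    · exact this.1 (by unfold InA; omega)
    · rw [this.2 (by unfold InA; omega)]; simp
  · have c1 : cat 1 (fun _ => 0) (cat L A fun _ => 0) d = 0 := by
      simp only [cat]; rw [if_neg (by omega), if_neg (by omega)]
    have c2 : cat 1 (fun _ => 0) (cat L A fun _ => 0) (2 * L + 1 - d) = A (2 * L - d) := by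
      simp only [cat]; rw [if_neg (by omega), if_pos (by omega)]; congr 1; omega
    rw [c1, c2, Matrix.zero_apply, mul_zero, zero_add, mul_pow, mul_pow, u2, one_mul, sq ε, hε,
      one_mul]
    have := hA (2 * L - d) (by omega) j i
    split_ifs with h2
    · exact this.1 (by unfold InA; omega)
    · rw [this.2 (by unfold InA; omega)]; simp

lemma Ami.per {I : Type} [Fintype I] [DecidableEq I] {A B : ℕ → Matrix I I ℤ} {N n m : ℕ}
    [NeZero N] (h : Ami N n m A B) :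
    per N A * (per N A)ᵀ = (n : ℤ) • 1 ∧ (per N A)ᵀ * per N A = (n : ℤ) • 1 ∧
    per N B * (per N B)ᵀ = (m : ℤ) • 1 ∧ (per N B)ᵀ * per N B = (m : ℤ) • 1 ∧
    per N A * (per N B)ᵀ = per N B * (per N A)ᵀ ∧ (per N A)ᵀ * per N B = (per N B)ᵀ * per N A := by
  have h1 := h.1 _ _ _ (gu_gv (N := N))
  have h2 := h.2.1 _ _ _ (gu_gv (N := N))
  have h3 := h.2.2 _ _ _ (gu_gv (N := N))
  simp only [← Phi_v]
  simp only [← Phi_u, ← Phi_mul, h1.1, h1.2, h2.1, h2.2, h3.1, h3.2, Phi_smul_one, and_self]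

structure Band {X : Type} [Fintype X] [DecidableEq X] {L : ℕ} (z : X → ZMod (2 * L + 1))
    (o l o' l' : ℕ) (w : ℤ) (P M W : Matrix X X ℤ) : Prop where
  sP : Rel 1 1 P
  sM : Rel (-1) 1 M
  sW : Rel (-1) 1 W
  wP : Wt P (w * l)
  wM : Wt M (w * l)
  wW : Wt W (w * l')
  PM : Rel 1 P M
  PW : Rel 1 P W
  MW : Rel 1 M W
  pP : ∀ p q, P p q ^ 2 = ind (rad L (z q - z p)) o l
  pM : ∀ p q, M p q ^ 2 = ind (rad L (z q - z p)) o l
  pW : ∀ p q, W p q ^ 2 = ind (rad L (z q - z p)) o' l'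

theorem band {K₁ K₂ F : Type} [Fintype K₁] [DecidableEq K₁] [Fintype K₂] [DecidableEq K₂]
    [Fintype F] [DecidableEq F] [Nonempty F] (hH : HadOn F) {f : ℕ} (hf : Fintype.card F = f)
    (hK : f = 4 * Fintype.card K₁ * Fintype.card K₂)
    {L o l o' l' : ℕ} (h : 2 * (o + l) ≤ L) (h' : 2 * (o' + l') ≤ L)
    (g1 : GK K₁ l) (g1' : GK K₁ 1) (g2 : GK K₂ l') (g2' : GK K₂ 1) :
    ∃ P M W, Band (X := Bool × (Bool × F) × ZMod (2 * L + 1))
      (fun p => p.2.2) o l o' l' (16 * f) P M W := by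
  obtain ⟨A, B, hAB, pA, pB⟩ := pair hH hf hK h h' g1 g1' g2 g2'
  obtain ⟨a1, a2, b1, b2, c1, c2⟩ := hAB.shift.per
  exact ⟨dbl 1 _, dbl (-1) _, dbl (-1) _, dbl_one (by ring) _, dbl_one (by ring) _,
    dbl_one (by ring) _, (dbl_wt (by ring) a1 a2).congr (by push_cast; ring),
    (dbl_wt (by ring) a1 a2).congr (by push_cast; ring),
    (dbl_wt (by ring) b1 b2).congr (by push_cast; ring), dbl_rel _ _ rfl rfl, dbl_rel _ _ c1 c2,
    dbl_rel _ _ c1 c2, dbl_pat h pA (by ring), dbl_pat h pA (by ring), dbl_pat h' pB (by ring)⟩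

end Pool.Agent.MP_d8b1b3_co.H14
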