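import Mathlib
import Pool.Agent.MP_d8b1b3_co.H14.Band

/-!
Band matrices adapted to the classes of a one-factorisation of the complete graph.
-/

set_option autoImplicit false

namespace Pool.Agent.MP_d8b1b3_co.H14

open Matrix
open scoped Kronecker

lemma exists_pairing {P R : Type} [Fintype P] [Fintype R] (μ : P → P)
    (h1 : ∀ p, μ (μ p) = p) (h2 : ∀ p, μ p ≠ p) (hc : Fintype.card P = 2 * Fintype.card R) :
    ∃ φ : Bool × R ≃ P, ∀ b r, φ (!b, r) = μ (φ (b, r)) := by
  classical
  let n := Fintype.equivFin P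
  let T := {p : P // n p < n (μ p)}
  let ψ : Bool × T → P := fun x => if x.1 = true then μ x.2.1 else x.2.1
  have hψ : Function.Bijective ψ := by
    constructor
    · rintro ⟨b, t, ht⟩ ⟨b', t', ht'⟩ h
      cases b <;> cases b' <;> simp only [ψ, if_true, Bool.false_eq_true, if_false] at h
      · subst h; rfl
      · subst h; rw [h1] at ht; exact absurd ht (lt_asymm ht')
      · subst h; rw [h1] at ht'; exact absurd ht (lt_asymm ht')
      · obtain rfl : t = t' := by rw [← h1 t, h, h1]
        rfl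
    · intro p
      rcases lt_trichotomy (n p) (n (μ p)) with h | h | h
      · exact ⟨(false, ⟨p, h⟩), by simp [ψ]⟩
      · exact absurd (n.injective h).symm (h2 p)
      · exact ⟨(true, ⟨μ p, by rwa [h1]⟩), by simp [ψ, h1]⟩
  have hT : Fintype.card R = Fintype.card T := by
    have := Fintype.card_of_bijective hψ
    simp only [Fintype.card_prod, Fintype.card_bool] at this
    omega
  let e : R ≃ T := Fintype.equivOfCardEq hT
  refine ⟨(Equiv.prodCongr (Equiv.refl Bool) e).trans (Equiv.ofBijective ψ hψ), fun b r => ?_⟩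
  cases b <;> simp [ψ, h1]

/-- the round robin tournament -/
def rr {m : ℕ} (k : ZMod m) : Option (ZMod m) → Option (ZMod m)
  | none => some k
  | some x => if x = k then none else some (2 * k - x)

section

variable {m : ℕ} (hm : Odd m)
include hm

lemma two_cancel {x y : ZMod m} (h : 2 * x = 2 * y) : x = y := by
  obtain ⟨j, hj⟩ := hm
  have h1 : ((2 * j + 1 : ℕ) : ZMod m) = 0 := by rw [← hj]; exact ZMod.natCast_self m
  push_cast at h1
  linear_combination (-(j : ZMod m)) * h + (x - y) * h1

lemma rr_rr (k : ZMod m) (p : Option (ZMod m)) : rr k (rr k p) = p := by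
  rcases p with _ | x
  · simp [rr]
  · by_cases h : x = k
    · simp [rr, h]
    · have h' : 2 * k - x ≠ k := fun h' => h (by linear_combination -h')
      simp [rr, h, h']

lemma rr_ne (k : ZMod m) (p : Option (ZMod m)) : rr k p ≠ p := by
  rcases p with _ | x
  · simp [rr]
  · by_cases h : x = k
    · simp [rr, h]
    · simp only [rr, if_neg h, ne_eq, Option.some.injEq]
      exact fun h' => h (two_cancel hm (by linear_combination -h'))

lemma rr_sum [NeZero m] (p q : Option (ZMod m)) :
    ∑ k : ZMod m, (if q = rr k p then (1 : ℤ) else 0) = if p = q then 0 else 1 := by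
  split_ifs with h
  · subst h
    exact Finset.sum_eq_zero fun k _ => if_neg (rr_ne hm k p).symm
  · have key : ∃ k, ∀ k', q = rr k' p ↔ k' = k := by
      rcases p with _ | x <;> rcases q with _ | y
      · exact absurd rfl h
      · exact ⟨y, fun k' => by simp [rr, eq_comm]⟩
      · refine ⟨x, fun k' => ?_⟩
        by_cases h' : x = k'
        · simp [rr, h']
        · simp [rr, h', Ne.symm h']
      · have hxy : x ≠ y := fun h' => h (by rw [h'])
        obtain ⟨j, hj⟩ := id hm
        have h1 : ((2 * j + 1 : ℕ) : ZMod m) = 0 := by rw [← hj]; exact ZMod.natCast_self m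
        push_cast at h1
        refine ⟨((j : ZMod m) + 1) * (x + y), fun k' => ?_⟩
        by_cases h' : x = k'
        · subst h'
          simp only [rr, if_true, reduceCtorEq, false_iff]
          exact fun h2 => hxy (by linear_combination 2 * h2 + (x + y) * h1)
        · simp only [rr, if_neg h', Option.some.injEq]
          exact ⟨fun h2 => two_cancel hm (by linear_combination -h2 - (x + y) * h1),
            fun h2 => by linear_combination -2 * h2 - (x + y) * h1⟩
    obtain ⟨k, hk⟩ := key
    simp [hk]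

end

structure Cls {P : Type} [Fintype P] [DecidableEq P] {L : ℕ} (μ : P → P) (o l o' l' : ℕ) (w : ℤ)
    (X Y M W : Matrix (P × ZMod (2 * L + 1)) (P × ZMod (2 * L + 1)) ℤ) : Prop where
  bd : Band Prod.snd o l o' l' w Y M W
  wX : Wt X 1
  sX : Rel (-1) 1 X
  XY : Rel 1 X Y
  XW : Rel (-1) X W
  pX : ∀ p q, X p q ^ 2 = if q.1 = μ p.1 ∧ q.2 = p.2 then 1 else 0

/-- reassociation -/
def reass {P F Z : Type} (φ : Bool × Bool × F ≃ P) : P × Z ≃ Bool × Bool × F × Z where
  toFun p := ((φ.symm p.1).1, (φ.symm p.1).2.1, (φ.symm p.1).2.2, p.2)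
  invFun q := (φ (q.1, q.2.1, q.2.2.1), q.2.2.2)
  left_inv p := by simp
  right_inv q := by simp

lemma cls {P F : Type} [Fintype P] [DecidableEq P] [Fintype F] [DecidableEq F] {L : ℕ} {μ : P → P}
    (h1 : ∀ p, μ (μ p) = p) (h2 : ∀ p, μ p ≠ p) (hc : Fintype.card P = 4 * Fintype.card F)
    {o l o' l' : ℕ} {w : ℤ}
    {Y M W : Matrix (Bool × F × ZMod (2 * L + 1)) (Bool × F × ZMod (2 * L + 1)) ℤ}
    (h : Band (fun p => p.2.2) o l o' l' w Y M W) :
    ∃ X Y M W, Cls (L := L) μ o l o' l' (2 * w) X Y M W := by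
  obtain ⟨φ, hφ⟩ := exists_pairing (R := Bool × F) μ h1 h2 (by
    simp only [Fintype.card_prod, Fintype.card_bool, hc]; ring)
  let e := reass (Z := ZMod (2 * L + 1)) φ
  have one : ∀ {ε : ℤ} {A : Matrix (Bool × F × ZMod (2 * L + 1)) (Bool × F × ZMod (2 * L + 1)) ℤ},
      Rel ε 1 A → Rel ε 1 ((H2 ⊗ₖ A).submatrix e e) := fun h => by
    have := rel_one_H2.kron h (one_mul _)
    rw [one_kronecker_one] at this
    exact this.one_submatrix e
  have rH : Rel 1 H2 H2 := Rel.refl _
  refine ⟨(J2 ⊗ₖ (1 : Matrix (Bool × F × ZMod (2 * L + 1)) _ ℤ)).submatrix e e,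
    (H2 ⊗ₖ Y).submatrix e e, (H2 ⊗ₖ M).submatrix e e, (H2 ⊗ₖ W).submatrix e e,
    ⟨one h.sP, one h.sM, one h.sW, ((wt_H2.kron h.wP).submatrix e).congr (by ring),
      ((wt_H2.kron h.wM).submatrix e).congr (by ring),
      ((wt_H2.kron h.wW).submatrix e).congr (by ring), (rH.kron h.PM (by ring)).submatrix e,
      (rH.kron h.PW (by ring)).submatrix e, (rH.kron h.MW (by ring)).submatrix e, ?_, ?_, ?_⟩,
    ((wt_J2.kron Wt.one).submatrix e).congr (by ring), ?_,
    (rel_J2_H2.kron h.sP (by ring)).submatrix e, (rel_J2_H2.kron h.sW (by ring)).submatrix e, ?_⟩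
  · intro p q
    rw [submatrix_apply, kronecker_apply, mul_pow, H2_sq, h.pP, one_mul]; rfl
  · intro p q
    rw [submatrix_apply, kronecker_apply, mul_pow, H2_sq, h.pM, one_mul]; rfl
  · intro p q
    rw [submatrix_apply, kronecker_apply, mul_pow, H2_sq, h.pW, one_mul]; rfl
  · have := rel_one_J2.kron (Rel.refl (1 : Matrix (Bool × F × ZMod (2 * L + 1)) _ ℤ)) (mul_one _)
    rw [one_kronecker_one] at this
    exact this.one_submatrix e
  · rintro ⟨p, z⟩ ⟨q, z'⟩
    obtain ⟨⟨b, a, x⟩, rfl⟩ := φ.surjective p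
    obtain ⟨⟨b', a', x'⟩, rfl⟩ := φ.surjective q
    rw [submatrix_apply, kronecker_apply, mul_pow, J2_sq]
    simp only [e, reass, Equiv.coe_fn_mk, Equiv.symm_apply_apply, ← hφ, φ.injective.eq_iff,
      Matrix.one_apply, Prod.mk.injEq]
    cases b <;> cases b' <;> simp [eq_comm, and_assoc]

end Pool.Agent.MP_d8b1b3_co.H14
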