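import Mathlib
import Pool.Agent.MP_d8b1b3_co.H14.Rel

/-!
A system of six matrices of order a power of two with prescribed weights.
-/

set_option autoImplicit false

namespace Pool.Agent.MP_d8b1b3_co.H14

open Matrix
open scoped Kronecker

structure Cube {V : Type} [Fintype V] [DecidableEq V] (m σ n : ℤ)
    (S D G T T' U : Matrix V V ℤ) : Prop where
  p1 : ∀ x y, S x y ^ 2 + D x y ^ 2 = 1
  p2 : ∀ x y, G x y ^ 2 = 1
  p3 : ∀ x y, T x y ^ 2 + T' x y ^ 2 + U x y ^ 2 = 1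
  wS : Wt S σ
  wD : Wt D (m - σ)
  wG : Wt G m
  wT : Wt T n
  wT' : Wt T' (m - 2 - n)
  wU : Wt U 2
  SD : Rel (-1) S D
  SG : Rel 1 S G
  DG : Rel 1 D G
  ST : Rel (-1) S T
  ST' : Rel (-1) S T'
  DT : Rel (-1) D T
  DT' : Rel (-1) D T'
  SU : Rel 1 S U
  DU : Rel 1 D U
  TG : Rel (-1) T G
  T'G : Rel (-1) T' G
  UG : Rel (-1) U G
  TU : Rel (-1) T U
  T'U : Rel (-1) T' U

section

variable {V : Type} [Fintype V] [DecidableEq V] {m σ n : ℤ} {S D G T T' U : Matrix V V ℤ}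

lemma Cube.swapS (h : Cube m σ n S D G T T' U) : Cube m (m - σ) n D S G T T' U :=
  ⟨fun x y => by rw [add_comm]; exact h.p1 x y, h.p2, h.p3, h.wD, h.wS.congr (by ring), h.wG,
    h.wT, h.wT', h.wU, h.SD.symm₂, h.DG, h.SG, h.DT, h.DT', h.ST, h.ST', h.DU, h.SU, h.TG, h.T'G,
    h.UG, h.TU, h.T'U⟩

lemma Cube.swapT (h : Cube m σ n S D G T T' U) : Cube m σ (m - 2 - n) S D G T' T U :=
  ⟨h.p1, h.p2, fun x y => by rw [add_comm (T' x y ^ 2)]; exact h.p3 x y, h.wS, h.wD, h.wG,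
    h.wT', h.wT.congr (by ring), h.wU, h.SD, h.SG, h.DG, h.ST', h.ST, h.DT', h.DT, h.SU, h.DU,
    h.T'G, h.TG, h.UG, h.T'U, h.TU⟩

lemma Cube.congr {m' σ' n' : ℤ} (h : Cube m σ n S D G T T' U) (e1 : m = m') (e2 : σ = σ')
    (e3 : n = n') : Cube m' σ' n' S D G T T' U := by
  subst e1 e2 e3; exact h

lemma mul_eq_zero_of_sq {a b c : ℤ} (h : a ^ 2 + b ^ 2 + c ^ 2 = 1) : a * c = 0 := by
  by_contra h0
  have ha : a ≠ 0 := left_ne_zero_of_mul h0
  have hc : c ≠ 0 := right_ne_zero_of_mul h0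
  have h1 : 0 < a ^ 2 := by positivity
  have h2 : 0 < c ^ 2 := by positivity
  nlinarith [sq_nonneg b]

lemma Cube.step (h : Cube m σ n S D G T T' U) :
    Cube (2 * m) (σ + m) (2 * n + 2) ((1 : Matrix Bool Bool ℤ) ⊗ₖ S + J2 ⊗ₖ G)
      ((1 : Matrix Bool Bool ℤ) ⊗ₖ D) (H2 ⊗ₖ G) (H2 ⊗ₖ T + J2 ⊗ₖ U) (H2 ⊗ₖ T')
      ((1 : Matrix Bool Bool ℤ) ⊗ₖ U) := by
  have r1 : Rel 1 (1 : Matrix Bool Bool ℤ) 1 := Rel.refl _
  have rH : Rel 1 H2 H2 := Rel.refl _
  have rJ : Rel 1 J2 J2 := Rel.refl _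
  have r1J := rel_one_J2
  have r1H := rel_one_H2
  have rJH := rel_J2_H2
  refine ⟨?_, ?_, ?_, ?_, ?_, ?_, ?_, ?_, ?_, ?_, ?_, ?_, ?_, ?_, ?_, ?_, ?_, ?_, ?_, ?_, ?_, ?_, ?_⟩
  · rintro ⟨a, x⟩ ⟨b, y⟩
    have h1 := h.p1 x y
    have h2 := h.p2 x y
    cases a <;> cases b <;> simp [J2, h1, h2]
  · rintro ⟨a, x⟩ ⟨b, y⟩
    rw [kronecker_apply, mul_pow, H2_sq, h.p2, one_mul]
  · rintro ⟨a, x⟩ ⟨b, y⟩
    have h1 := h.p3 x y
    have h2 : T x y * U x y = 0 := mul_eq_zero_of_sq h1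
    cases a <;> cases b <;> simp [J2, H2, h1]
    · linear_combination h1 + 2 * h2
    · linear_combination h1 - 2 * h2
  · exact ((Wt.one.kron h.wS).add (wt_J2.kron h.wG) (r1J.kron h.SG (by ring))).congr (by ring)
  · exact (Wt.one.kron h.wD).congr (by ring)
  · exact wt_H2.kron h.wG
  · exact ((wt_H2.kron h.wT).add (wt_J2.kron h.wU) (rJH.symm₁.kron h.TU (by ring))).congr (by ring)
  · exact (wt_H2.kron h.wT').congr (by ring)
  · exact (Wt.one.kron h.wU).congr (by ring)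
  · exact (r1.kron h.SD (by ring)).add_left (r1J.symm₂.kron h.DG.symm₁ (by ring))
  · exact (r1H.kron h.SG (by ring)).add_left (rJH.kron (Rel.refl _) (by ring))
  · exact r1H.kron h.DG (by ring)
  · exact ((r1H.kron h.ST (by ring)).add_right (r1J.kron h.SU (by ring))).add_left
      ((rJH.kron h.TG.symm₂ (by ring)).add_right (rJ.kron h.UG.symm₂ (by ring)))
  · exact (r1H.kron h.ST' (by ring)).add_left (rJH.kron h.T'G.symm₂ (by ring))
  · exact (r1H.kron h.DT (by ring)).add_right (r1J.kron h.DU (by ring))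
  · exact r1H.kron h.DT' (by ring)
  · exact (r1.kron h.SU (by ring)).add_left (r1J.symm₂.kron h.UG.symm₂ (by ring))
  · exact r1.kron h.DU (by ring)
  · exact (rH.kron h.TG (by ring)).add_left (rJH.kron h.UG (by ring))
  · exact rH.kron h.T'G (by ring)
  · exact r1H.kron h.UG (by ring)
  · exact (r1H.symm₁.kron h.TU (by ring)).add_left (r1J.symm₂.kron (Rel.refl _) (by ring))
  · exact r1H.symm₁.kron h.T'U (by ring)

end

/-- the symmetric partner of `H2` -/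
def U2 : Matrix Bool Bool ℤ := fun i j => if i = false ∧ j = false then 1 else -1

lemma cube_base₁ : Cube 2 1 0 (1 : Matrix Bool Bool ℤ) J2 H2 0 0 U2 := by
  constructor
  all_goals first
    | (intro x y; cases x <;> cases y <;> simp [J2, H2, U2])
    | (simp only [Wt, Rel]; ext i j; cases i <;> cases j <;> simp [J2, H2, U2, Matrix.mul_apply])

lemma cube_base₂ : Cube 2 2 0 ((1 : Matrix Bool Bool ℤ) + J2) 0 H2 0 0 U2 := by
  constructor
  all_goals first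
    | (intro x y; cases x <;> cases y <;> simp [J2, H2, U2])
    | (simp only [Wt, Rel]; ext i j; cases i <;> cases j <;>
        simp [J2, H2, U2, Matrix.mul_apply, Matrix.one_apply])

lemma cube (b : ℕ) : ∀ σ ν : ℕ, σ ≤ 2 ^ (b + 1) → ν < 2 ^ b →
    ∃ (V : Type) (_ : Fintype V) (_ : DecidableEq V), Fintype.card V = 2 ^ (b + 1) ∧
      ∃ S D G T T' U : Matrix V V ℤ, Cube (2 ^ (b + 1)) σ (2 * ν) S D G T T' U := by
  induction b with
  | zero =>
    intro σ ν h1 h2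
    obtain rfl : ν = 0 := by omega
    refine ⟨Bool, inferInstance, inferInstance, by simp, ?_⟩
    obtain rfl | rfl | rfl : σ = 0 ∨ σ = 1 ∨ σ = 2 := by omega
    · exact ⟨_, _, _, _, _, _, cube_base₂.swapS.congr (by norm_num) (by norm_num) (by norm_num)⟩
    · exact ⟨_, _, _, _, _, _, cube_base₁.congr (by norm_num) (by norm_num) (by norm_num)⟩
    · exact ⟨_, _, _, _, _, _, cube_base₂.congr (by norm_num) (by norm_num) (by norm_num)⟩
  | succ b ih =>
    intro σ ν h1 h2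
    have hν : ν / 2 < 2 ^ b := by rw [pow_succ] at h2; omega
    have key : ∀ σ' : ℕ, σ' ≤ 2 ^ (b + 1) →
        ∃ (V : Type) (_ : Fintype V) (_ : DecidableEq V), Fintype.card V = 2 ^ (b + 1 + 1) ∧
          ∃ S D G T T' U : Matrix V V ℤ,
            Cube (2 ^ (b + 1 + 1)) (σ' + 2 ^ (b + 1)) (2 * ν) S D G T T' U := by
      intro σ' h
      obtain ⟨V, _, _, hV, S, D, G, T, T', U, hc⟩ := ih σ' (ν / 2) h hν
      refine ⟨Bool × V, inferInstance, inferInstance, by simp [hV, pow_succ]; ring, ?_⟩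
      rcases Nat.even_or_odd' ν with ⟨k, rfl | rfl⟩
      · rw [show 2 * k / 2 = k by omega] at hc
        exact ⟨_, _, _, _, _, _, hc.swapT.step.swapT.congr (by ring) rfl (by push_cast; ring)⟩
      · rw [show (2 * k + 1) / 2 = k by omega] at hc
        exact ⟨_, _, _, _, _, _, hc.step.congr (by ring) rfl (by push_cast; ring)⟩
    by_cases hσ : σ ≤ 2 ^ (b + 1)
    · obtain ⟨V, _, _, hV, S, D, G, T, T', U, hc⟩ := key (2 ^ (b + 1) - σ) (by omega)
      refine ⟨V, inferInstance, inferInstance, hV, _, _, _, _, _, _, hc.swapS.congr rfl ?_ rfl⟩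
      rw [Nat.cast_sub hσ]; push_cast; ring
    · have h3 : 2 ^ (b + 1) ≤ σ := by omega
      obtain ⟨V, _, _, hV, S, D, G, T, T', U, hc⟩ := key (σ - 2 ^ (b + 1))
        (by rw [pow_succ 2 (b + 1)] at h1; omega)
      refine ⟨V, inferInstance, inferInstance, hV, _, _, _, _, _, _, hc.congr rfl ?_ rfl⟩
      rw [Nat.cast_sub h3]; push_cast; ring

end Pool.Agent.MP_d8b1b3_co.H14
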