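import Mathlib
import Pool.Agent.MP_d8b1b3_co.H14.Rel

/-!
The first Paley construction.
-/

set_option autoImplicit false

namespace Pool.Agent.MP_d8b1b3_co.H14

open Matrix

theorem paley {p : ℕ} (hp : p.Prime) (h3 : p % 4 = 3) : PH (p + 1) (p + 1) := by
  have : Fact p.Prime := ⟨hp⟩
  have hF : ringChar (ZMod p) ≠ 2 := by
    rw [ZMod.ringChar_zmod_n]; omega
  let χ := quadraticChar (ZMod p)
  have hneg : χ (-1) = -1 := quadraticChar_neg_one_iff_not_isSquare.2 (by
    rw [FiniteField.isSquare_neg_one_iff, ZMod.card]; omega)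
  have hsum : ∑ a, χ a = 0 := quadraticChar_sum_zero hF
  have hsum' : ∀ x : ZMod p, ∑ z, χ (x - z) = 0 := fun x => by
    rw [← hsum]
    exact Equiv.sum_comp (Equiv.subLeft x) (fun a => χ a)
  have hcore : ∀ x y : ZMod p, ∑ z, χ (x - z) * χ (y - z) =
      (if x = y then (p : ℤ) else 0) - 1 := by
    intro x y
    split_ifs with hxy
    · subst hxy
      have : ∀ z, χ (x - z) * χ (x - z) = 1 - if z = x then 1 else 0 := by
        intro z
        split_ifs with hz
        · simp [hz, χ.map_zero]
        · rw [← sq, quadraticChar_sq_one (sub_ne_zero.2 (Ne.symm hz)), sub_zero]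
      simp only [this, Finset.sum_sub_distrib, Finset.sum_const, Finset.card_univ, ZMod.card,
        nsmul_eq_mul, mul_one, Finset.sum_ite_eq', Finset.mem_univ, if_true]
    · have hd : x - y ≠ 0 := sub_ne_zero.2 hxy
      have e1 : ∀ z, χ (x - z) * χ (y - z) =
          χ (1 + (x - y) * (y - z)⁻¹) - if z = y then 1 else 0 := by
        intro z
        split_ifs with hz
        · simp [hz, χ.map_zero]
        · have h0 : y - z ≠ 0 := sub_ne_zero.2 (Ne.symm hz)
          have h1 : x - z = (1 + (x - y) * (y - z)⁻¹) * (y - z) := by field_simp; ring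
          rw [sub_zero]
          conv_lhs => rw [h1, map_mul, mul_assoc, ← sq, quadraticChar_sq_one h0, mul_one]
      simp only [e1, Finset.sum_sub_distrib, Finset.sum_ite_eq', Finset.mem_univ, if_true]
      congr 1
      rw [← hsum]
      exact Equiv.sum_comp ((Equiv.subLeft y).trans ((Equiv.inv (ZMod p)).trans
        ((Equiv.mulLeft₀ (x - y) hd).trans (Equiv.addLeft 1)))) (fun a => χ a)
  let Z : Matrix (Option (ZMod p)) (Option (ZMod p)) ℤ := Matrix.of fun x y =>
    x.elim (y.elim 0 fun _ => 1) fun a => y.elim (-1) fun b => χ (a - b)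
  have hZ : Rel (-1) 1 Z := by
    apply Rel.one
    ext (_ | x) (_ | y)
    · simp [Z]
    · simp [Z]
    · simp [Z]
    · show χ (y - x) = -1 * χ (x - y)
      rw [show y - x = -1 * (x - y) by ring, map_mul, hneg]
  have wZ : Wt Z p := by
    unfold Wt
    ext (_ | x) (_ | y)
    · simp [Z, Matrix.mul_apply, Fintype.sum_option, ZMod.card]
    · simpa [Z, Matrix.mul_apply, Fintype.sum_option] using hsum' y
    · simpa [Z, Matrix.mul_apply, Fintype.sum_option] using hsum' x
    · have := hcore x y
      simp only [Z, Matrix.mul_apply, Fintype.sum_option, transpose_apply, Matrix.of_apply,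
        Option.elim, this, Matrix.smul_apply, Matrix.one_apply, Option.some.injEq, smul_eq_mul]
      split_ifs <;> ring
  refine PH.of_card (1 + Z) ?_ ((Wt.one.add wZ hZ).congr (by push_cast; ring))
    (by simp [ZMod.card]) (by simp [ZMod.card])
  rintro (_ | x) (_ | y)
  · simp [Z]
  · simp [Z]
  · simp [Z]
  · by_cases h : x = y
    · simp [Z, h, χ.map_zero]
    · have := quadraticChar_dichotomy (sub_ne_zero.2 h)
      simpa [Z, χ, Matrix.one_apply, h] using this

end Pool.Agent.MP_d8b1b3_co.H14
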