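import Mathlib
import Pool.Agent.MP_48b1c3_nt.H54.Sifted

/-!
Primes in all reduced classes modulo `M * f ^ 2` for a small `M` and a suitable large prime `f`.
-/

set_option autoImplicit false

namespace Pool.Agent.MP_d8b1b3_co.H14

open Finset Filter Pool.Agent.MP_48b1c3_nt.H54

lemma exp_four_le : Real.exp 4 ≤ 64 := by
  calc Real.exp 4 = Real.exp 1 ^ 4 := by rw [← Real.exp_nat_mul]; norm_num
    _ ≤ 2.75 ^ 4 := by
        gcongr
        linarith [Real.exp_one_lt_d9]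
    _ ≤ _ := by norm_num

lemma of_wt {x : ℝ} (hx : 0 < x) {p : ℕ} (h : wt x p ≠ 0) :
    p.Prime ∧ x < 64 * p ∧ (p : ℝ) ≤ x := by
  obtain ⟨k1, k2, k3⟩ := mem_PI.1 (mem_PI_of_wt hx h)
  refine ⟨k3, ?_, k2⟩
  rw [div_lt_iff₀ (Real.exp_pos _)] at k1
  nlinarith [p.cast_nonneg (α := ℝ), exp_four_le]

open scoped Classical in
theorem exists_prime (B : ℕ) : ∃ y₀ : ℝ, ∀ᶠ x : ℝ in atTop, ∀ (M : ℕ) (y : ℝ), 0 < M →
    (M : ℝ) ≤ Real.log x ^ B → y₀ ≤ y → 64 * M ≤ y → (M * y ^ 2) ^ 20 ≤ x →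
    ∃ f : ℕ, f.Prime ∧ y < 64 * f ∧ (f : ℝ) ≤ y ∧ ∀ a : ℕ, a.Coprime (M * f ^ 2) →
      ∃ p : ℕ, p.Prime ∧ p ≡ a [MOD M * f ^ 2] ∧ x < 64 * p ∧ (p : ℝ) ≤ x := by
  obtain ⟨C, C0, hC⟩ := bv_family (B + 2)
  obtain ⟨y₀, hy₀⟩ := eventually_atTop.1 wt_sum_lower
  refine ⟨y₀, ?_⟩
  filter_upwards [hC, wt_sum_lower, Real.tendsto_log_atTop.eventually_gt_atTop (400 * C),
    eventually_ge_atTop 3] with x hC hw hL hx M y hM hMB hy hMy hxy
  have L1 : 1 ≤ Real.log x := sw_one_le hx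
  have hx0 : 0 < x := by linarith
  have M1 : (1 : ℝ) ≤ M := by exact_mod_cast hM
  have y64 : 64 ≤ y := by linarith
  have y0 : 0 < y := by linarith
  have hQ : M * y ^ 2 ≤ x ^ (1 / 20 : ℝ) := by
    rw [one_div, Real.le_rpow_inv_iff_of_pos (by positivity) hx0.le (by norm_num),
      show (20 : ℝ) = (20 : ℕ) by norm_num, Real.rpow_natCast]
    exact hxy
  have hQx : 64 * (M * y ^ 2) ≤ x := by
    have h1 : 64 ≤ M * y ^ 2 := by nlinarith
    calc 64 * (M * y ^ 2) ≤ (M * y ^ 2) * (M * y ^ 2) := by gcongr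
      _ = (M * y ^ 2) ^ 2 := by ring
      _ ≤ (M * y ^ 2) ^ 20 := pow_le_pow_right₀ (by linarith) (by norm_num)
      _ ≤ x := hxy
  have hyx : y ≤ x := by nlinarith
  generalize hR : ⌊x ^ (1 / 20 : ℝ)⌋₊ = R at hC
  set θ : (Σ q : ℕ, DirichletCharacter ℂ q) → ℝ := fun i => ‖bv_theta x fun n => i.2 n‖ with hθ
  have θ0 : ∀ i, 0 ≤ θ i := fun i => norm_nonneg _
  have key : ∀ (s : Finset (Σ q : ℕ, DirichletCharacter ℂ q)) (z : ℝ), s ⊆ bv_X R → 0 ≤ z →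
      (∀ i ∈ s, (i.1 : ℝ) ≤ z ^ 2) → ∑ i ∈ s, θ i ≤ z * (C * x / Real.log x ^ (B + 2)) := by
    intro s z hs hz h
    calc ∑ i ∈ s, θ i ≤ ∑ i ∈ s, z * (θ i / √i.1) := by
          refine sum_le_sum fun i hi => ?_
          have h0 : (0 : ℝ) < i.1 := by exact_mod_cast (bv_mem_X.1 (hs hi)).1.1
          rw [mul_div_assoc', le_div_iff₀ (by positivity), mul_comm]
          exact mul_le_mul_of_nonneg_right (Real.sqrt_le_iff.2 ⟨hz, h i hi⟩) (θ0 i)
      _ ≤ ∑ i ∈ bv_X R, z * (θ i / √i.1) :=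
          sum_le_sum_of_subset_of_nonneg hs fun i _ _ => mul_nonneg hz (div_nonneg (θ0 i) (by
            positivity))
      _ ≤ _ := by rw [← mul_sum]; gcongr
  have small : ∀ z : ℝ, 0 ≤ z → M * z * (C * x / Real.log x ^ (B + 2)) ≤
      z * (x / 400) / Real.log x := fun z hz => by
    calc M * z * (C * x / Real.log x ^ (B + 2))
        ≤ Real.log x ^ B * z * (Real.log x / 400 * x / Real.log x ^ (B + 2)) := by
          gcongr; linarith
      _ = _ := by field_simp; ring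
  let Φ := (Icc 1 ⌊y⌋₊).filter fun f => wt y f ≠ 0
  have hΦ : ∀ f ∈ Φ, f.Prime ∧ M < f ∧ y < 64 * f ∧ (f : ℝ) ≤ y := fun f hf => by
    obtain ⟨k1, k2, k3⟩ := of_wt y0 (mem_filter.1 hf).2
    exact ⟨k1, by exact_mod_cast (by linarith : (M : ℝ) < f), k2, k3⟩
  have card : y / 10 ≤ #Φ * Real.log x := by
    refine (hy₀ y hy).trans ?_
    rw [← sum_filter_ne_zero, ← nsmul_eq_mul]
    refine sum_le_card_nsmul _ _ _ fun f hf => (wt_le y f).trans ?_
    exact Real.log_le_log (by exact_mod_cast (hΦ f hf).1.pos) ((hΦ f hf).2.2.2.trans hyx)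
  let S : ℕ → Finset (Σ q : ℕ, DirichletCharacter ℂ q) :=
    fun f => (bv_X R).filter fun i => f ∣ i.1 ∧ i.1 ∣ M * f ^ 2
  have avg : ∑ f ∈ Φ, ∑ i ∈ S f, θ i ≤ ∑ _f ∈ Φ, x / 40 := by
    rw [← sum_biUnion]
    · refine (key _ (M * y) (biUnion_subset.2 fun f _ => filter_subset _ _) (by positivity)
        fun i hi => ?_).trans ((small y y0.le).trans ?_)
      · obtain ⟨f, hf, hi⟩ := mem_biUnion.1 hi
        obtain ⟨k1, -, -, k4⟩ := hΦ f hf
        have h1 : (i.1 : ℝ) ≤ (M * f ^ 2 : ℕ) := by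
          exact_mod_cast Nat.le_of_dvd (Nat.mul_pos hM (pow_pos k1.pos 2)) (mem_filter.1 hi).2.2
        push_cast at h1
        calc (i.1 : ℝ) ≤ M * f ^ 2 := h1
          _ ≤ M ^ 2 * y ^ 2 := by gcongr; nlinarith
          _ = _ := by ring
      · rw [sum_const, nsmul_eq_mul, div_le_iff₀ (by linarith)]
        nlinarith
    · intro f hf f' hf' hne
      rw [Function.onFun, disjoint_left]
      intro i hi hi'
      obtain ⟨k1, k2, -⟩ := hΦ f hf
      rcases (Nat.Prime.dvd_mul k1).1 ((mem_filter.1 hi).2.1.trans (mem_filter.1 hi').2.2) with h | h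
      · exact absurd (Nat.le_of_dvd hM h) (by omega)
      · exact hne ((Nat.prime_dvd_prime_iff_eq k1 (hΦ f' hf').1).1 (k1.dvd_of_dvd_pow h))
  have ne : Φ.Nonempty := by
    rw [← card_pos]
    by_contra h
    rw [show #Φ = 0 by omega] at card
    simp only [Nat.cast_zero, zero_mul] at card
    linarith
  obtain ⟨f, hf, hS⟩ := exists_le_of_sum_le ne avg
  obtain ⟨k1, k2, k3, k4⟩ := hΦ f hf
  refine ⟨f, k1, k3, k4, fun a ha => ?_⟩
  have N0 : 0 < M * f ^ 2 := Nat.mul_pos hM (pow_pos k1.pos 2)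
  have : NeZero (M * f ^ 2) := ⟨N0.ne'⟩
  have hN : ((M * f ^ 2 : ℕ) : ℝ) ≤ M * y ^ 2 := by push_cast; gcongr
  have cop : ∀ n, wt x n ≠ 0 → n.Coprime (M * f ^ 2) := fun n hn => by
    obtain ⟨h1, h2, -⟩ := of_wt hx0 hn
    refine (Nat.Prime.coprime_iff_not_dvd h1).2 (Nat.not_dvd_of_pos_of_lt N0 ?_)
    exact_mod_cast (by linarith : ((M * f ^ 2 : ℕ) : ℝ) < n)
  have h1 := bv_sum_chars_le (R := R) (by rw [← hR]; exact Nat.le_floor (hN.trans hQ)) cop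
  have h2 : ∑ i ∈ (bv_X R).filter (fun i => i.1 ∣ M * f ^ 2), θ i ≤ x / 20 := by
    rw [← sum_filter_add_sum_filter_not _ (fun i => f ∣ i.1), filter_filter, filter_filter]
    have h3 := (key ((bv_X R).filter fun i => i.1 ∣ M * f ^ 2 ∧ ¬ f ∣ i.1) (M * 1)
      (filter_subset _ _) (by positivity) fun i hi => by
        obtain ⟨-, h4, h5⟩ := mem_filter.1 hi
        have h6 : i.1 ∣ M := (((Nat.Prime.coprime_iff_not_dvd k1).2 h5).symm.pow_right
          2).dvd_of_dvd_mul_right h4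
        have h7 : (i.1 : ℝ) ≤ M := by exact_mod_cast Nat.le_of_dvd hM h6
        nlinarith).trans (small 1 zero_le_one)
    have h4 : 1 * (x / 400) / Real.log x ≤ x / 400 := by
      rw [one_mul]; exact div_le_self (by positivity) L1
    have h5 : ∑ i ∈ (bv_X R).filter (fun i => i.1 ∣ M * f ^ 2 ∧ f ∣ i.1), θ i ≤ x / 40 := by
      simpa only [S, and_comm] using hS
    linarith
  have hφ : (0 : ℝ) < (M * f ^ 2).totient := by exact_mod_cast Nat.totient_pos.2 N0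
  have h4 := (bv_Err_le ha cop).trans (div_le_div_of_nonneg_right (h1.trans h2) hφ.le)
  rw [abs_le, Err] at h4
  have h5 : x / 20 / (M * f ^ 2).totient < (∑ n ∈ Icc 1 ⌊x⌋₊, wt x n) / (M * f ^ 2).totient := by
    gcongr; linarith
  obtain ⟨p, hp, hp'⟩ := exists_ne_zero_of_sum_ne_zero
    (s := (Icc 1 ⌊x⌋₊).filter (fun n => n ≡ a [MOD M * f ^ 2])) (f := wt x) (by linarith [h4.1])
  exact ⟨p, (of_wt hx0 hp').1, (mem_filter.1 hp).2, (of_wt hx0 hp').2⟩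

end Pool.Agent.MP_d8b1b3_co.H14
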