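import Mathlib
import Pool.Agent.MP_d8b1b3_co.H14.Cls
import Pool.Agent.MP_d8b1b3_co.H14.Cube

/-!
The blow-up step for partial Hadamard matrices.
-/

set_option autoImplicit false

namespace Pool.Agent.MP_d8b1b3_co.H14

open Matrix
open scoped Kronecker

lemma G_zero (t : ℕ) : G t 0 :=
  ⟨fun _ => 0, fun s hs => absurd hs (Nat.not_lt_zero s), fun R _ u v _ => by simp [Adj, ev]⟩

lemma GK_prod {t l : ℕ} (h : G t l) (W : Type) [Fintype W] [DecidableEq W] :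
    GK (Fin (2 ^ t) × W) l := by
  obtain ⟨M, hM⟩ := h
  have := (hM.kron_left (fun _ : W => false)).submatrix (Equiv.prodAssoc _ _ _).symm
  exact ⟨_, by convert this using 1; funext x; simp⟩

lemma ind_sum (x o l m : ℕ) : ∑ k ∈ Finset.range m, ind x (o + k * l) l = ind x o (m * l) := by
  induction m with
  | zero => simp only [Finset.range_zero, Finset.sum_empty, ind]; rw [if_neg (by omega)]
  | succ m ih =>
    rw [Finset.sum_range_succ, ih, Nat.succ_mul]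
    generalize m * l = a
    unfold ind
    split_ifs <;> omega

lemma system {V : Type} [Fintype V] [DecidableEq V] {c σ ν : ℤ} {S D G T T' U : Matrix V V ℤ}
    (hc : Cube c σ ν S D G T T' U) {m : ℕ} [NeZero m] (hm : Odd m) {β β₀ L : ℕ} {w : ℤ}
    (hL : L = 2 * (β₀ + m * β + m))
    (h0 : ∃ X Y M W, Cls (L := L) (rr (0 : ZMod m)) (β₀ + m * β) m 0 β₀ w X Y M W)
    (h1 : ∀ k : ZMod m, ∃ X Y M W,
      Cls (L := L) (rr k) (β₀ + m * β + k.val * 1) 1 (β₀ + k.val * β) β w X Y M W)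
    (hH : HadOn (Option (ZMod m))) {n e r : ℕ}
    (e1 : (n : ℤ) = 4 * σ + (m + 1) ^ 2 * (c + ν * w + c * (w * β))) (hw : w = 4 * (m + 1))
    (hV : (Fintype.card V : ℤ) = c)
    (e3 : n = (m + 1) * (Fintype.card V * ((m + 1) * (2 * L + 1))) + e)
    (hr : r ≤ Fintype.card V * ((m + 1) * (2 * L + 1))) (hY : PH r e) : PH ((m + 1) * r) n := by
  obtain ⟨-, Y₀, M₀, W₀, ⟨b0, -, -, -, -, -⟩⟩ := h0
  choose X Y M W hk using h1
  have card : Fintype.card (V × Option (ZMod m) × ZMod (2 * L + 1)) =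
      Fintype.card V * ((m + 1) * (2 * L + 1)) := by
    simp only [Fintype.card_prod, Fintype.card_option, ZMod.card]
  have r1 : Rel 1 (1 : Matrix (Option (ZMod m) × ZMod (2 * L + 1)) _ ℤ) 1 := Rel.refl _
  refine star (K := V × Option (ZMod m) × ZMod (2 * L + 1)) hH (S ⊗ₖ 1)
    (fun χ => χ.elim (D ⊗ₖ 1 + T' ⊗ₖ Y₀ + U ⊗ₖ M₀ + G ⊗ₖ W₀)
      fun k => G ⊗ₖ X k + T ⊗ₖ Y k + G ⊗ₖ W k) (σ := σ)
    (u0 := (c - σ) * 1 + (c - 2 - ν) * (w * m) + 2 * (w * m) + c * (w * β₀))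
    (u := c * 1 + ν * (w * (1 : ℕ)) + c * (w * β)) ?_ ((hc.wS.kron Wt.one).congr (mul_one _))
    ?_ (fun k => ?_) ?_ (g := m + 1) (by simp only [Fintype.card_option, ZMod.card])
    (by rw [e1]; push_cast; ring) ?_ (by rw [card]; exact e3) (by rw [card]; exact hr) hY
  · rintro ⟨v, p, z⟩ ⟨v', p', z'⟩
    refine ⟨_, fun χ => χ.elim ((D v v' * (1 : Matrix _ _ ℤ) (p, z) (p', z')) ^ 2 +
      (T' v v' * Y₀ (p, z) (p', z')) ^ 2 + (U v v' * M₀ (p, z) (p', z')) ^ 2 +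
      (G v v' * W₀ (p, z) (p', z')) ^ 2) fun k => (G v v' * X k (p, z) (p', z')) ^ 2 +
      (T v v' * Y k (p, z) (p', z')) ^ 2 + (G v v' * W k (p, z) (p', z')) ^ 2, Dom.sq _, ?_, ?_⟩
    · rintro (_ | k)
      · exact (((Dom.sq _).add (Dom.sq _)).add (Dom.sq _)).add (Dom.sq _)
      · exact ((Dom.sq _).add (Dom.sq _)).add (Dom.sq _)
    · simp only [Fintype.sum_option, Option.elim, kronecker_apply, mul_pow, hc.p2, one_mul,
        b0.pP, b0.pM, b0.pW, (hk _).pX, (hk _).bd.pP, (hk _).bd.pW, Finset.sum_add_distrib,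
        ← Finset.mul_sum]
      rw [sum_zmod (fun s => ind (rad L (z' - z)) (β₀ + m * β + s * 1) 1),
        sum_zmod (fun s => ind (rad L (z' - z)) (β₀ + s * β) β), ind_sum, ind_sum, mul_one]
      have q1 := hc.p1 v v'
      have q3 := hc.p3 v v'
      by_cases hz : z' = z
      · subst hz
        simp only [and_true, rr_sum hm, sub_self, rad_zero, Matrix.one_apply, Prod.mk.injEq, ind]
        rw [if_neg (show ¬(β₀ + m * β ≤ L ∧ L < β₀ + m * β + m) by omega),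
          if_neg (show ¬(0 ≤ L ∧ L < 0 + β₀) by omega),
          if_neg (show ¬(β₀ ≤ L ∧ L < β₀ + m * β) by omega)]
        split_ifs
        · linear_combination q1
        · ring
      · have h2 := rad_lt (sub_ne_zero.2 hz)
        have h3 : ind (rad L (z' - z)) (β₀ + m * β) m + ind (rad L (z' - z)) 0 β₀ +
            ind (rad L (z' - z)) β₀ (m * β) = 1 := by
          unfold ind
          split_ifs <;> omega
        simp only [hz, Ne.symm hz, and_false, if_false, Finset.sum_const_zero, Matrix.one_apply,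
          Prod.mk.injEq]
        linear_combination h3 + ind (rad L (z' - z)) (β₀ + m * β) m * q3
  · exact (((hc.wD.kron Wt.one).add (hc.wT'.kron b0.wP) (hc.DT'.kron b0.sP (by ring))).add
      (hc.wU.kron b0.wM) ((hc.DU.kron b0.sM (by ring)).add_left
        (hc.T'U.kron b0.PM (by ring)))).add (hc.wG.kron b0.wW)
      (((hc.DG.kron b0.sW (by ring)).add_left (hc.T'G.kron b0.PW (by ring))).add_left
        (hc.UG.kron b0.MW (by ring)))
  · exact ((hc.wG.kron (hk k).wX).add (hc.wT.kron (hk k).bd.wP)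
      (hc.TG.symm₂.kron (hk k).XY (by ring))).add (hc.wG.kron (hk k).bd.wW)
      (((Rel.refl G).kron (hk k).XW (by ring)).add_left (hc.TG.kron (hk k).bd.PW (by ring)))
  · rintro (_ | k)
    · exact (((hc.SD.kron r1 (by ring)).add_right (hc.ST'.kron b0.sP (by ring))).add_right
        (hc.SU.kron b0.sM (by ring))).add_right (hc.SG.kron b0.sW (by ring))
    · exact ((hc.SG.kron (hk k).sX (by ring)).add_right
        (hc.ST.kron (hk k).bd.sP (by ring))).add_right (hc.SG.kron (hk k).bd.sW (by ring))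
  · have e4 : (n : ℤ) = (m + 1) * (c * ((m + 1) * (2 * (2 * (β₀ + m * β + m)) + 1))) + e := by
      rw [e3, hL, ← hV]; push_cast; ring
    subst hw
    push_cast
    linear_combination e1 - e4

lemma classes {t f m L : ℕ} [NeZero m] (hm : Odd m) (hf : 0 < f) (hg : m + 1 = 2 ^ (2 * t + 5) * f)
    (gf : G t f) (k : ZMod m) {o l o' l' : ℕ} (h : 2 * (o + l) ≤ L) (h' : 2 * (o' + l') ≤ L)
    (g1 : G t l) (g2 : G t l') :
    ∃ X Y M W, Cls (L := L) (rr k) o l o' l' (4 * (m + 1)) X Y M W := by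
  have : Nonempty (Fin (2 ^ (2 * t + 2) * f)) := ⟨⟨0, by positivity⟩⟩
  have g0 : G t 1 := G_one.mono (Nat.zero_le t)
  obtain ⟨P, M, W, hb⟩ := band (K₁ := Fin (2 ^ t) × Fin f) (K₂ := Fin (2 ^ t))
    ((gf.mono (by omega : t ≤ 2 * t)).had hf) (Fintype.card_fin _)
    (by simp only [Fintype.card_prod, Fintype.card_fin]; ring) h h' (GK_prod g1 _) (GK_prod g0 _)
    g2 g0
  obtain ⟨X, Y, M, W, hc⟩ := cls (F := Bool × Fin (2 ^ (2 * t + 2) * f)) (rr_rr hm k) (rr_ne hm k)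
    (by simp only [Fintype.card_option, ZMod.card, Fintype.card_prod, Fintype.card_bool,
      Fintype.card_fin, hg]; ring) hb
  refine ⟨X, Y, M, W, ?_⟩
  have e : (4 * (m + 1) : ℤ) = 2 * (16 * ((2 ^ (2 * t + 2) * f : ℕ) : ℤ)) := by
    have : (m + 1 : ℤ) = 2 ^ (2 * t + 5) * f := by exact_mod_cast hg
    rw [this]; push_cast; ring
  rw [e]; exact hc

theorem blowup' {t f b n e r g σ : ℕ} (hG : ∀ x, 0 < x → x ≤ n → G t x) (hf : 0 < f)
    (hg : g = 2 ^ (2 * t + 5) * f) (hσ : σ ≤ 2 ^ (b + 1))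
    (hn : g ^ 2 * 2 ^ (b + 1) + 4 * σ ≡ n [MOD 8 * g ^ 3])
    (hmod : e + g ^ 2 * 2 ^ (b + 1) ≡ n [MOD 4 * g ^ 2 * 2 ^ (b + 1)])
    (hle : (g + 1) * e + 5 * g ^ 4 * 2 ^ (b + 1) ≤ n) (hr : r ≤ e) (hY : PH r e) :
    PH (g * r) n := by
  have hG' : ∀ x, x ≤ n → G t x := fun x hx => by
    rcases Nat.eq_zero_or_pos x with rfl | h
    · exact G_zero t
    · exact hG x h hx
  obtain ⟨a, ha⟩ : ∃ a, g = 2 * a ∧ 0 < a ∧ f ≤ a :=
    ⟨2 ^ (2 * t + 4) * f, by rw [hg]; ring, by positivity, Nat.le_mul_of_pos_left _ (by positivity)⟩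
  obtain ⟨m, rfl⟩ : ∃ m, g = m + 1 := ⟨g - 1, by omega⟩
  have hm : Odd m := ⟨a - 1, by omega⟩
  have : NeZero m := ⟨by omega⟩
  obtain ⟨c, hc⟩ : ∃ c, c = 2 ^ (b + 1) := ⟨_, rfl⟩
  have c0 : 0 < c := by rw [hc]; positivity
  rw [← hc] at hσ hn hmod hle
  have p1 : (m + 1) ^ 2 * c + 4 * c ≤ (m + 1) ^ 4 * c := by
    rw [← add_mul]
    refine Nat.mul_le_mul_right _ ?_
    have h1 : 2 ^ 2 ≤ (m + 1) ^ 2 := Nat.pow_le_pow_left (by omega) 2
    calc (m + 1) ^ 2 + 4 ≤ 2 ^ 2 * (m + 1) ^ 2 := by omega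
      _ ≤ (m + 1) ^ 2 * (m + 1) ^ 2 := Nat.mul_le_mul_right _ h1
      _ = _ := by ring
  have p2 : m + 1 ≤ (m + 1) ^ 4 * c :=
    (Nat.le_self_pow (by omega) _).trans (Nat.le_mul_of_pos_right _ c0)
  have p3 : e ≤ (m + 1 + 1) * e := Nat.le_mul_of_pos_left _ (by omega)
  have p4 : 5 * (m + 1) ^ 4 * c = 5 * ((m + 1) ^ 4 * c) := by ring
  obtain ⟨N, hN⟩ : ∃ N, n = (m + 1) ^ 2 * c + 4 * σ + 8 * (m + 1) ^ 3 * N := by
    obtain ⟨N, hN⟩ := (Nat.modEq_iff_dvd' (by omega)).1 hn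
    exact ⟨N, by omega⟩
  obtain ⟨Λ, hΛ⟩ : ∃ Λ, n = e + (m + 1) ^ 2 * c + 4 * (m + 1) ^ 2 * c * Λ := by
    obtain ⟨Λ, hΛ⟩ := (Nat.modEq_iff_dvd' (by omega)).1 hmod
    exact ⟨Λ, by omega⟩
  obtain ⟨β, ν, hβ, hν⟩ : ∃ β ν, N = ν + 2 ^ b * β ∧ ν < 2 ^ b :=
    ⟨N / 2 ^ b, N % 2 ^ b, (Nat.mod_add_div _ _).symm, Nat.mod_lt _ (by positivity)⟩
  have hN' : n = (m + 1) ^ 2 * c + 4 * σ + 8 * ((m + 1) ^ 3 * ν) + 4 * ((m + 1) ^ 3 * c * β) := by
    rw [hN, hβ, hc]; ring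
  have key : m * β + m ≤ Λ := by
    have q0 : 0 < 4 * (m + 1) ^ 2 * c := by positivity
    refine Nat.le_of_mul_le_mul_left ?_ q0
    have q1 : 2 * ((m + 1) ^ 3 * ν) ≤ (m + 1) ^ 3 * c := by
      calc _ = (m + 1) ^ 3 * (2 * ν) := by ring
        _ ≤ _ := Nat.mul_le_mul_left _ (by rw [hc, pow_succ]; omega)
    have q2 : (m + 1) * (e + 4 * ((m + 1) ^ 2 * c * m)) ≤
        (m + 1) * (4 * ((m + 1) ^ 2 * c * β)) := by
      have r1 : (m + 1) * (e + 4 * ((m + 1) ^ 2 * c * m)) + 4 * ((m + 1) ^ 3 * c) =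
          (m + 1) * e + 4 * ((m + 1) ^ 4 * c) := by ring
      have r2 : (m + 1) * (4 * ((m + 1) ^ 2 * c * β)) = 4 * ((m + 1) ^ 3 * c * β) := by ring
      have r3 : (m + 1 + 1) * e = (m + 1) * e + e := by ring
      omega
    have q3 := Nat.le_of_mul_le_mul_left q2 (by omega : 0 < m + 1)
    have q4 : (m + 1) ^ 3 * c * β = (m + 1) ^ 2 * c * (m * β) + (m + 1) ^ 2 * c * β := by ring
    have q5 : 4 * (m + 1) ^ 2 * c * (m * β + m) =
        4 * ((m + 1) ^ 2 * c * (m * β)) + 4 * ((m + 1) ^ 2 * c * m) := by ring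
    omega
  obtain ⟨β₀, rfl⟩ : ∃ β₀, Λ = β₀ + m * β + m := ⟨Λ - (m * β + m), by omega⟩
  have b1 : β₀ + m * β + m ≤ n := by
    have : β₀ + m * β + m ≤ 4 * (m + 1) ^ 2 * c * (β₀ + m * β + m) :=
      Nat.le_mul_of_pos_left _ (by positivity)
    omega
  have b2 : β ≤ m * β := Nat.le_mul_of_pos_left _ (by omega)
  obtain ⟨V, _, _, hV, S, D, G, T, T', U, hcube⟩ := cube b σ ν (by omega) hν
  have gf := hG' f (by omega)
  have e3 : n = (m + 1) * (Fintype.card V * ((m + 1) * (2 * (2 * (β₀ + m * β + m)) + 1))) + e := by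
    rw [hV, ← hc, hΛ]; ring
  refine system hcube hm (β := β) (β₀ := β₀) rfl
    (classes hm hf hg gf 0 le_rfl (by omega) (hG' m (by omega)) (hG' β₀ (by omega)))
    (fun k => classes hm hf hg gf k ?_ ?_ (hG' 1 (by omega)) (hG' β (by omega)))
    (((gf.mono (by omega : t ≤ 2 * t + 3)).had hf).of_card
      (by simp only [Fintype.card_option, ZMod.card, Fintype.card_fin, hg]))
    ?_ rfl (by rw [hV]; push_cast; rfl) e3 ?_ hY
  · have := ZMod.val_lt k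
    omega
  · have h1 : (k.val + 1) * β ≤ m * β := Nat.mul_le_mul_right _ (ZMod.val_lt k)
    rw [add_mul] at h1
    omega
  · rw [hN', hc]; push_cast; ring
  · refine hr.trans (Nat.le_of_mul_le_mul_left ?_ (by omega : 0 < m + 1))
    have : (m + 1 + 1) * e = (m + 1) * e + e := by ring
    omega

theorem blowup {t f b n e r g : ℕ} (hG : ∀ x, 0 < x → x ≤ n → G t x) (hf : 0 < f)
    (hg : g = 2 ^ (2 * t + 5) * f) (hb : 2 * g ^ 3 ≤ 2 ^ (b + 1)) (h4 : 4 ∣ n)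
    (hmod : e + g ^ 2 * 2 ^ (b + 1) ≡ n [MOD 4 * g ^ 2 * 2 ^ (b + 1)])
    (hle : (g + 1) * e + 5 * g ^ 4 * 2 ^ (b + 1) ≤ n) (hr : r ≤ e) (hY : PH r e) :
    PH (g * r) n := by
  have g0 : 0 < g := by rw [hg]; positivity
  have p1 : g ^ 2 * 2 ^ (b + 1) ≤ 5 * g ^ 4 * 2 ^ (b + 1) :=
    Nat.mul_le_mul_right _ ((Nat.pow_le_pow_right g0 (by omega)).trans
      (Nat.le_mul_of_pos_left _ (by omega)))
  obtain ⟨N, hN⟩ : ∃ N, n = g ^ 2 * 2 ^ (b + 1) + 4 * N := by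
    obtain ⟨n', hn'⟩ := h4
    have : g ^ 2 * 2 ^ (b + 1) = 4 * ((2 ^ (2 * t + 4) * f) ^ 2 * 2 ^ (b + 1)) := by rw [hg]; ring
    exact ⟨n' - (2 ^ (2 * t + 4) * f) ^ 2 * 2 ^ (b + 1), by omega⟩
  refine blowup' (σ := N % (2 * g ^ 3)) hG hf hg ((Nat.mod_lt _ (by positivity)).le.trans hb) ?_
    hmod hle hr hY
  rw [hN, show 8 * g ^ 3 = 4 * (2 * g ^ 3) by ring]
  exact ((Nat.mod_modEq _ _).mul_left' 4).add_left _

end Pool.Agent.MP_d8b1b3_co.H14
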