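import Mathlib
import Pool.Agent.MP_d8b1b3_co.Boot
import Pool.Agent.MP_d8b1b3_co.H14.Step
import Pool.Agent.MP_d8b1b3_co.H14.Paley
import Pool.Agent.MP_d8b1b3_co.H14.Prime

/-!
Partial Hadamard matrices with almost all rows.
-/

set_option autoImplicit false

namespace Pool.Agent.MP_d8b1b3_co.H14

open Filter

lemma exists_class (B a n : ℕ) {M : ℕ} (hM : 0 < M) :
    ∃ e, B ≤ e ∧ e < B + M ∧ e + a ≡ n [MOD M] := by
  obtain ⟨k, rfl⟩ : ∃ k, M = k + 1 := ⟨M - 1, by omega⟩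
  refine ⟨B + (n + k * (B + a)) % (k + 1), by omega,
    Nat.add_lt_add_left (Nat.mod_lt _ hM) _, ?_⟩
  have h1 := (Nat.mod_modEq (n + k * (B + a)) (k + 1)).add_left (B + a)
  rw [show B + a + (n + k * (B + a)) = n + (k + 1) * (B + a) by ring] at h1
  rw [add_right_comm]
  exact h1.trans (Nat.add_mul_mod_self_left _ _ _)

lemma count {w T E n g P Z : ℕ} (hw : 32 ≤ w) (hT : T ≤ w) (hup : w ^ 3 * E ≤ n)
    (hbig : w ^ 31 ≤ n) (hP : P ≤ 18 * w ^ 23) (hZ : Z ≤ 10 * w ^ 28) (hg : g ≤ w ^ 4)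
    (h1 : g * (w * E) ≤ n) (h2 : n ≤ Z + (g + T + 1) * ((w + 1) * E + P)) :
    w * n ≤ w * (g * (w * E)) + 4 * n := by
  have a1 : w * Z ≤ 10 * w ^ 29 := by
    calc w * Z ≤ w * (10 * w ^ 28) := Nat.mul_le_mul_left _ hZ
      _ = _ := by ring
  have a2 : w * (g * P) ≤ 18 * w ^ 29 := by
    calc w * (g * P) ≤ w * (w ^ 4 * (18 * w ^ 23)) := by gcongr
      _ = 18 * w ^ 28 := by ring
      _ ≤ _ := Nat.mul_le_mul_left _ (Nat.pow_le_pow_right (by omega) (by omega))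
  have a3 : w * ((T + 1) * P) ≤ 36 * w ^ 29 := by
    calc w * ((T + 1) * P) ≤ w * ((2 * w) * (18 * w ^ 23)) := by gcongr; omega
      _ = 36 * w ^ 25 := by ring
      _ ≤ _ := Nat.mul_le_mul_left _ (Nat.pow_le_pow_right (by omega) (by omega))
  have a4 : w * ((T + 1) * ((w + 1) * E)) ≤ 2 * (w ^ 3 * E) := by
    calc w * ((T + 1) * ((w + 1) * E)) ≤ w * ((w + 1) * ((w + 1) * E)) := by gcongr
      _ = w * E * ((w + 1) * (w + 1)) := by ring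
      _ ≤ w * E * (2 * w ^ 2) := Nat.mul_le_mul_left _ (by nlinarith)
      _ = _ := by ring
  have a5 : 64 * w ^ 29 ≤ w ^ 31 := by
    calc 64 * w ^ 29 ≤ w ^ 2 * w ^ 29 := Nat.mul_le_mul_right _ (by nlinarith)
      _ = _ := by ring
  have a6 : w * (Z + (g + T + 1) * ((w + 1) * E + P)) = w * Z + w * (g * (w * E)) + g * (w * E) +
      w * (g * P) + w * ((T + 1) * P) + w * ((T + 1) * ((w + 1) * E)) := by ring
  have a7 := Nat.mul_le_mul_left w h2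
  omega

lemma quotient {T B Z n f : ℕ} (T0 : 0 < T) (B0 : 0 < B) (BZ : B + Z ≤ n) (hf : f.Prime) :
    ∃ k, (T * k + 1) * B + Z ≤ n ∧ n ≤ Z + (T * k + 2 * T + 1) * B ∧ (k = 0 ∨ ¬ f ∣ k) := by
  obtain ⟨q, q1, q2, q3⟩ : ∃ q, 0 < q ∧ q * B ≤ n - Z ∧ n - Z < (q + 1) * B :=
    ⟨(n - Z) / B, Nat.div_pos (by omega) B0, Nat.div_mul_le_self _ _,
      (Nat.div_lt_iff_lt_mul B0).1 (Nat.lt_succ_self _)⟩
  have q4 := Nat.mod_add_div (q - 1) T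
  have q5 := Nat.mod_lt (q - 1) T0
  generalize (q - 1) / T = k at q4
  have key : ∀ k', k' ≤ k → k ≤ k' + 1 →
      (T * k' + 1) * B + Z ≤ n ∧ n ≤ Z + (T * k' + 2 * T + 1) * B := fun k' h h' => by
    have a1 : T * k' ≤ T * k := Nat.mul_le_mul_left _ h
    have a2 : T * k ≤ T * (k' + 1) := Nat.mul_le_mul_left _ h'
    rw [mul_add, mul_one] at a2
    have a3 : (T * k' + 1) * B ≤ q * B := Nat.mul_le_mul_right _ (by omega)
    have a4 : (q + 1) * B ≤ (T * k' + 2 * T + 1) * B := Nat.mul_le_mul_right _ (by omega)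
    omega
  by_cases h : f ∣ k
  · rcases k with _ | k
    · exact ⟨0, (key 0 le_rfl (by omega)).1, (key 0 le_rfl (by omega)).2, Or.inl rfl⟩
    · exact ⟨k, (key k (by omega) le_rfl).1, (key k (by omega) le_rfl).2, Or.inr fun h' =>
        hf.one_lt.ne' (Nat.dvd_one.1 ((Nat.dvd_add_right h').1 h))⟩
  · exact ⟨k, (key k le_rfl (by omega)).1, (key k le_rfl (by omega)).2, Or.inr h⟩

lemma exists_class₂ (B a n a' : ℕ) {M M' : ℕ} (hM : 0 < M) (hM' : 0 < M') (h : M.Coprime M') :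
    ∃ e, B ≤ e ∧ e < B + M * M' ∧ e + a ≡ n [MOD M] ∧ e ≡ a' [MOD M'] := by
  obtain ⟨e₀, -, -, h0⟩ := exists_class 0 a n hM
  obtain ⟨c, c1, c2⟩ := Nat.chineseRemainder h e₀ a'
  obtain ⟨e, e1, e2, e3⟩ := exists_class B 0 c (Nat.mul_pos hM hM')
  rw [add_zero] at e3
  exact ⟨e, e1, e2, (((e3.of_mul_right M').trans c1).add_right a).trans h0,
    (e3.of_mul_left M).trans c2⟩

theorem core {t T f n p σ w : ℕ} (hG : ∀ x, 0 < x → x ≤ n → G t x) (hT : T = 2 ^ (2 * t + 5))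
    (ht : 4 ≤ t) (hf : f.Prime) (f2 : f ≠ 2) (hw : w = T * f) (h4 : 4 ∣ n) (hp : p.Prime)
    (hσ : σ ≤ 2 * T ^ 3) (hσ' : 4 * σ ≡ n [MOD 8 * T ^ 3])
    (hmod : p + (1 + w ^ 2 * (2 * T ^ 3)) ≡ n [MOD 8 * T ^ 5]) (hmod' : p + 1 ≡ 4 * σ [MOD f ^ 2])
    (hup : w ^ 3 * (p + 1) ≤ n) (hlo : n ≤ 2 ^ 25 * w ^ 3 * (p + 1)) (hbig : w ^ 31 ≤ n) :
    ∃ r, PH r n ∧ w * n ≤ w * r + 4 * n := by
  have T13 : 2 ^ 13 ≤ T := by rw [hT]; exact Nat.pow_le_pow_right two_pos (by omega)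
  have T0 : 0 < T := by omega
  have Tw : 2 * T ≤ w := by rw [hw, mul_comm]; exact Nat.mul_le_mul_left _ hf.two_le
  have w32 : 32 ≤ w := by omega
  have cop : ∀ i j, (2 ^ i).Coprime (f ^ j) := fun i j =>
    ((Nat.coprime_primes Nat.prime_two hf).2 f2.symm).pow _ _
  have p3 : p % 4 = 3 := by
    have h1 : p + (1 + w ^ 2 * (2 * T ^ 3)) ≡ n [MOD 4] := hmod.of_dvd ⟨2 * T ^ 5, by ring⟩
    have h2 : w ^ 2 * (2 * T ^ 3) = 4 * (w ^ 2 * T ^ 2 * 2 ^ (2 * t + 4)) := by rw [hT]; ring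
    unfold Nat.ModEq at h1
    omega
  obtain ⟨E, hE⟩ : ∃ E, E = p + 1 := ⟨_, rfl⟩
  have hY := paley hp p3
  rw [← add_assoc] at hmod
  rw [← hE] at hup hlo hY hmod hmod'
  have E0 : 0 < E := by omega
  obtain ⟨γ, Γ, hΓ, Γ1, Γw⟩ : ∃ γ Γ, Γ = 2 ^ γ ∧ 2 ^ 25 * w ^ 2 ≤ Γ ∧ Γ ≤ w ^ 4 := by
    have h1 := Nat.lt_pow_succ_log_self one_lt_two (2 ^ 25 * w ^ 2)
    have h2 := Nat.pow_log_le_self 2 (x := 2 ^ 25 * w ^ 2) (by positivity)
    refine ⟨_, _, rfl, h1.le, ?_⟩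
    calc _ = 2 * 2 ^ Nat.log 2 (2 ^ 25 * w ^ 2) := pow_succ' _ _
      _ ≤ (2 ^ 13) ^ 2 * w ^ 2 := by omega
      _ ≤ w ^ 2 * w ^ 2 := Nat.mul_le_mul_right _ (Nat.pow_le_pow_left (by omega) 2)
      _ = _ := by ring
  have hγ : 2 * (2 * t + 5) ≤ γ := by
    have h1 : T ^ 2 ≤ w ^ 2 := Nat.pow_le_pow_left (by omega) 2
    have h2 : 2 ^ (2 * (2 * t + 5)) ≤ 2 ^ γ := by
      rw [← hΓ, mul_comm, pow_mul, ← hT]; omega
    exact (Nat.pow_le_pow_iff_right one_lt_two).1 h2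
  have hP : 10 * w ^ 7 + 8 * Γ ^ 5 * w ^ 3 ≤ 18 * w ^ 23 := by
    have h1 : w ^ 7 ≤ w ^ 23 := Nat.pow_le_pow_right (by omega) (by omega)
    have h2 : 8 * Γ ^ 5 * w ^ 3 ≤ 8 * w ^ 23 := by
      calc _ ≤ 8 * (w ^ 4) ^ 5 * w ^ 3 := by gcongr
        _ = _ := by ring
    omega
  have hZ : 10 * Γ ^ 7 ≤ 10 * w ^ 28 :=
    Nat.mul_le_mul_left _ ((Nat.pow_le_pow_left Γw 7).trans_eq (by ring))
  obtain ⟨B, hB⟩ : ∃ B, B = (w + 1) * E + (10 * w ^ 7 + 8 * Γ ^ 5 * w ^ 3) := ⟨_, rfl⟩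
  have wE : w * E ≤ (w + 1) * E := Nat.mul_le_mul_right _ (by omega)
  have wE0 : 0 < w * E := by positivity
  have B0 : 0 < B := by omega
  have BZ : B + 10 * Γ ^ 7 ≤ n := by
    have h1 : 2 * ((w + 1) * E) ≤ w ^ 3 * E := by
      rw [← mul_assoc]
      refine Nat.mul_le_mul_right _ ?_
      calc 2 * (w + 1) ≤ w * w := by nlinarith
        _ ≤ w ^ 3 := by rw [← sq]; exact Nat.pow_le_pow_right (by omega) (by omega)
    have h2 : w ^ 23 ≤ w ^ 28 := Nat.pow_le_pow_right (by omega) (by omega)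
    have h3 : 56 * w ^ 28 ≤ w ^ 31 := by
      calc 56 * w ^ 28 ≤ w ^ 2 * w ^ 28 := Nat.mul_le_mul_right _ (by nlinarith)
        _ = w ^ 30 := by ring
        _ ≤ _ := Nat.pow_le_pow_right (by omega) (by omega)
    omega
  obtain ⟨k, h1, h2, hk⟩ := quotient T0 B0 BZ hf
  obtain ⟨g, hg⟩ : ∃ g, g = T * k := ⟨_, rfl⟩
  rw [← hg] at h1 h2
  have h3 : g * (w * E) ≤ n := by
    have : g * (w * E) ≤ (g + 1) * B := Nat.mul_le_mul (by omega) (by omega)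
    omega
  have gΓ : g ≤ Γ := by
    refine (Nat.le_of_mul_le_mul_right (h3.trans (hlo.trans_eq ?_)) wE0).trans Γ1
    ring
  have h5 := count w32 Tw hup hbig hP hZ (gΓ.trans Γw) h3 (by rw [← hB]; exact h2)
  have k0 : 0 < k := by
    rcases Nat.eq_zero_or_pos k with rfl | h
    · rw [hg, mul_zero, zero_mul, mul_zero, zero_add] at h5
      have : 32 * n ≤ w * n := Nat.mul_le_mul_right _ w32
      omega
    · exact h
  have g0 : 0 < g := by rw [hg]; positivity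
  have c2 : 2 ^ (3 * γ + 1) = 2 * Γ ^ 3 := by rw [hΓ]; ring
  have c1 : 2 ^ (6 * t + 15 + 1) = 2 * T ^ 3 := by rw [hT]; ring
  obtain ⟨e, e1, e2, e3, e3'⟩ := exists_class₂ ((w + 1) * E + 10 * w ^ 7) (g ^ 2 * 2 ^ (3 * γ + 1)) n
    (w ^ 2 * (2 * T ^ 3) + 4 * σ) (M := 4 * g ^ 2 * 2 ^ (3 * γ + 1)) (M' := f ^ 3) (by positivity)
    (pow_pos hf.pos 3) (by
      rw [show 4 * g ^ 2 * 2 ^ (3 * γ + 1) = 2 ^ (4 * t + 3 * γ + 13) * k ^ 2 by rw [hg, hT]; ring]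
      exact (cop _ _).mul_left
        (((Nat.Prime.coprime_iff_not_dvd hf).2 (hk.resolve_left k0.ne')).symm.pow _ _))
  have fw : f ≤ w := by rw [hw]; exact Nat.le_mul_of_pos_left _ T0
  have eB : e ≤ B := by
    have : 4 * g ^ 2 * 2 ^ (3 * γ + 1) * f ^ 3 ≤ 8 * Γ ^ 5 * w ^ 3 := by
      calc _ ≤ 4 * Γ ^ 2 * (2 * Γ ^ 3) * w ^ 3 := by rw [c2]; gcongr
        _ = _ := by ring
    omega
  have h6 : (g + 1) * e + 5 * g ^ 4 * 2 ^ (3 * γ + 1) ≤ n := by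
    have a1 : (g + 1) * e ≤ (g + 1) * B := Nat.mul_le_mul_left _ eB
    have a2 : 5 * g ^ 4 * 2 ^ (3 * γ + 1) ≤ 10 * Γ ^ 7 := by
      calc _ ≤ 5 * Γ ^ 4 * (2 * Γ ^ 3) := by rw [c2]; gcongr
        _ = _ := by ring
    omega
  have en : e ≤ n := by
    have : e ≤ (g + 1) * e := Nat.le_mul_of_pos_left _ (by omega)
    omega
  have T5 : 8 * T ^ 5 = 2 ^ (10 * t + 28) := by rw [hT]; ring
  have T3 : 8 * T ^ 3 = 2 ^ (6 * t + 18) := by rw [hT]; ring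
  have e4 : e ≡ n [MOD 8 * T ^ 5] := by
    have d1 : 8 * T ^ 5 ∣ g ^ 2 * 2 ^ (3 * γ + 1) := by
      rw [T5]; exact (pow_dvd_pow 2 (by omega)).mul_left _
    have d2 := e3.of_dvd (show 8 * T ^ 5 ∣ _ by rw [mul_assoc]; exact d1.mul_left 4)
    exact ((Nat.modEq_iff_dvd' (Nat.le_add_right _ _)).2 (by rwa [Nat.add_sub_cancel_left])).trans d2
  refine ⟨_, blowup hG k0 (by rw [hg, hT]) (by rw [c2]; gcongr) h4 e3 h6 (by omega)
    (blowup' (t := t) (f := f) (b := 6 * t + 15) (g := w) (σ := σ)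
      (fun x h h' => hG x h (h'.trans en)) hf.pos (by rw [hw, hT]) (hσ.trans c1.ge)
      ?_ ?_ ?_ le_rfl hY), h5⟩
  · rw [c1, show 8 * w ^ 3 = 8 * T ^ 3 * f ^ 3 by rw [hw]; ring,
      ← Nat.modEq_and_modEq_iff_modEq_mul (by rw [T3]; exact cop _ _)]
    refine ⟨?_, e3'.symm⟩
    have d1 : w ^ 2 * (2 * T ^ 3) ≡ 0 [MOD 8 * T ^ 3] :=
      Nat.modEq_zero_iff_dvd.2 ⟨(2 ^ (2 * t + 4) * f) ^ 2, by rw [hw, hT]; ring⟩
    have d2 := (d1.add hσ').trans (by rw [zero_add])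
    exact d2.trans (e4.of_dvd ⟨T ^ 2, by ring⟩).symm
  · rw [c1, show 4 * w ^ 2 * (2 * T ^ 3) = 8 * T ^ 5 * f ^ 2 by rw [hw]; ring,
      ← Nat.modEq_and_modEq_iff_modEq_mul (by rw [T5]; exact cop _ _)]
    refine ⟨hmod.trans e4.symm, ?_⟩
    rw [add_comm]
    exact (hmod'.add_left _).trans (e3'.of_dvd (pow_dvd_pow f (by omega))).symm
  · refine le_trans (Nat.add_le_add_left ?_ _) e1
    calc 5 * w ^ 4 * 2 ^ (6 * t + 15 + 1) ≤ 5 * w ^ 4 * (2 * w ^ 3) := by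
          rw [c1]; gcongr; omega
      _ = _ := by ring

lemma good_all {L n : ℕ} (hL : 12 ≤ L) (hn : n < 2 ^ 2 ^ L) :
    ∀ x, 0 < x → x ≤ n → G (1731 * (2 * (4624 * L + 1)) + 3466) x := fun x h1 h2 =>
  step L _ hL (fun y k1 k2 => G_binary _ y k1
    (k2.trans_lt (Nat.pow_lt_pow_right one_lt_two (Nat.lt_succ_self _)))) L le_rfl x h1
    (h2.trans_lt hn)

lemma log_bounds {n : ℕ} (hn : 2 ≤ n) :
    n < 2 ^ 2 ^ (Nat.log 2 (Nat.log 2 n) + 1) ∧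
      Real.log n ≤ (2 : ℝ) ^ (Nat.log 2 (Nat.log 2 n) + 1) ∧
      (2 : ℝ) ^ (Nat.log 2 (Nat.log 2 n) + 1) ≤ 3 * Real.log n := by
  have h1 : n < 2 ^ (Nat.log 2 n + 1) := Nat.lt_pow_succ_log_self one_lt_two n
  have h2 : Nat.log 2 n < 2 ^ (Nat.log 2 (Nat.log 2 n) + 1) :=
    Nat.lt_pow_succ_log_self one_lt_two _
  have h3 : 2 ^ Nat.log 2 n ≤ n := Nat.pow_log_le_self 2 (by omega)
  have h4 : 2 ^ Nat.log 2 (Nat.log 2 n) ≤ Nat.log 2 n :=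
    Nat.pow_log_le_self 2 (Nat.log_pos one_lt_two hn).ne'
  have h5 : n < 2 ^ 2 ^ (Nat.log 2 (Nat.log 2 n) + 1) :=
    h1.trans_le (Nat.pow_le_pow_right two_pos h2)
  have l1 := Real.log_two_gt_d9
  have l2 := Real.log_two_lt_d9
  refine ⟨h5, ?_, ?_⟩
  · have h6 : Real.log n ≤ Real.log ((2 : ℝ) ^ 2 ^ (Nat.log 2 (Nat.log 2 n) + 1)) :=
      Real.log_le_log (by positivity) (by exact_mod_cast h5.le)
    rw [Real.log_pow] at h6
    push_cast at h6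
    have : (0 : ℝ) < 2 ^ (Nat.log 2 (Nat.log 2 n) + 1) := by positivity
    nlinarith
  · have h6 : Real.log ((2 : ℝ) ^ Nat.log 2 n) ≤ Real.log n :=
      Real.log_le_log (by positivity) (by exact_mod_cast h3)
    rw [Real.log_pow] at h6
    have h7 : (2 : ℝ) ^ Nat.log 2 (Nat.log 2 n) ≤ Nat.log 2 n := by exact_mod_cast h4
    have : (0 : ℝ) ≤ Nat.log 2 n := by positivity
    rw [pow_succ]
    nlinarith

lemma residue {T f n σ : ℕ} (hf : f.Prime) (hT : ∃ j, 8 * T ^ 5 = 2 ^ (j + 1)) (f2 : f ≠ 2)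
    (h2 : 2 ∣ n) (hσ : 4 * σ < f) (u : ℕ) :
    ∃ a, a.Coprime (8 * T ^ 5 * f ^ 2) ∧ a + (1 + u * (2 * T ^ 3)) ≡ n [MOD 8 * T ^ 5] ∧
      a + 1 ≡ 4 * σ [MOD f ^ 2] := by
  obtain ⟨j, hj⟩ := hT
  obtain ⟨a₂, -, -, h₂⟩ := exists_class 0 1 (4 * σ) (pow_pos hf.pos 2)
  obtain ⟨a, -, -, h₃, h₄⟩ := exists_class₂ 0 (1 + u * (2 * T ^ 3)) n a₂ (M := 8 * T ^ 5)
    (M' := f ^ 2) (by rw [hj]; positivity) (pow_pos hf.pos 2)
    (by rw [hj]; exact ((Nat.coprime_primes Nat.prime_two hf).2 f2.symm).pow _ _)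
  have h₅ := (h₄.add_right 1).trans h₂
  refine ⟨a, Nat.Coprime.mul_right ?_ ?_, h₃, h₅⟩
  · have k1 : a + (1 + u * (2 * T ^ 3)) ≡ n [MOD 2] := h₃.of_dvd ⟨4 * T ^ 5, by ring⟩
    have k2 : u * (2 * T ^ 3) = 2 * (u * T ^ 3) := by ring
    unfold Nat.ModEq at k1
    rw [hj]
    exact (Nat.coprime_two_right.2 (Nat.odd_iff.2 (by omega))).pow_right _
  · refine ((Nat.Prime.coprime_iff_not_dvd hf).2 fun h => ?_).symm.pow_right _
    have k1 : 0 + 1 ≡ 4 * σ [MOD f] :=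
      ((Nat.modEq_zero_iff_dvd.2 h).symm.add_right 1).trans (h₅.of_dvd (dvd_pow_self f two_ne_zero))
    have := Nat.ModEq.eq_of_lt_of_lt k1 hf.one_lt hσ
    omega

theorem many_rows : ∀ᶠ n : ℕ in atTop, 4 ∣ n →
    ∃ r : ℕ, (n : ℝ) - (n : ℝ) ^ (49 / 50 : ℝ) ≤ r ∧ PH r n := by
  obtain ⟨D, hD⟩ : ∃ D, D = 32040000 := ⟨_, rfl⟩
  obtain ⟨y₀, hx₀⟩ := exists_prime (5 * D + 1)
  obtain ⟨x₀, hx₀⟩ := eventually_atTop.1 hx₀
  have t1 : Tendsto (fun n : ℕ => (n : ℝ)) atTop atTop := tendsto_natCast_atTop_atTop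
  have t2 : Tendsto (fun n : ℕ => Real.log n) atTop atTop := Real.tendsto_log_atTop.comp t1
  have t3 : Tendsto (fun n : ℕ => (n : ℝ) ^ (1 / 200 : ℝ)) atTop atTop :=
    (tendsto_rpow_atTop (by norm_num)).comp t1
  have h1 := t1.eventually ((isLittleO_log_rpow_rpow_atTop ((D * 5 : ℕ) : ℝ) (s := 1 / 200)
    (by norm_num)).bound (c := 1 / (8 * 3 ^ (D * 5))) (by positivity))
  filter_upwards [h1, eventually_ge_atTop 2, t2.eventually_ge_atTop (2 ^ 12),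
    t2.eventually_ge_atTop (2 * (8 * 6 ^ (D * 5))), t3.eventually_ge_atTop x₀,
    t3.eventually_ge_atTop y₀, t3.eventually_ge_atTop 4] with n h1 h2 h3 h4 h5 h6 h7 hn
  obtain ⟨l1, l2, l3⟩ := log_bounds h2
  generalize Nat.log 2 (Nat.log 2 n) + 1 = L at l1 l2 l3
  have hL : 12 ≤ L := by
    have : (2 : ℝ) ^ 12 ≤ 2 ^ L := h3.trans l2
    exact (pow_le_pow_iff_right₀ one_lt_two).1 this
  have n0 : (0 : ℝ) < n := by positivity
  have lg0 : 0 < Real.log n := lt_of_lt_of_le (by norm_num) h3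
  have hz : ((n : ℝ) ^ (1 / 200 : ℝ)) ^ 200 = n := by
    rw [← Real.rpow_natCast, ← Real.rpow_mul n0.le]; norm_num
  have hz' : (n : ℝ) ^ (49 / 50 : ℝ) = ((n : ℝ) ^ (1 / 200 : ℝ)) ^ 196 := by
    rw [← Real.rpow_natCast, ← Real.rpow_mul n0.le]; norm_num
  rw [Real.rpow_natCast, Real.norm_of_nonneg (by positivity), Real.norm_of_nonneg (by positivity),
    one_div, le_inv_mul_iff₀ (by positivity), mul_assoc, ← mul_pow, pow_mul] at h1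
  rw [hz']
  generalize (n : ℝ) ^ (1 / 200 : ℝ) = z at *
  have z1 : 1 ≤ z := by linarith
  have hG := good_all hL l1
  obtain ⟨t, ht⟩ : ∃ t, t = 1731 * (2 * (4624 * L + 1)) + 3466 := ⟨_, rfl⟩
  rw [← ht] at hG
  have t4 : 4 ≤ t := by linarith
  obtain ⟨T, hT⟩ : ∃ T : ℕ, T = 2 ^ (2 * t + 5) := ⟨_, rfl⟩
  have T13 : 2 ^ 13 ≤ T := by rw [hT]; exact Nat.pow_le_pow_right two_pos (by omega)
  have T13' : (2 : ℝ) ^ 13 ≤ T := by exact_mod_cast T13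
  have T1 : (1 : ℝ) ≤ T := by linarith
  have Tle : (T : ℝ) ≤ (3 * Real.log n) ^ D := by
    have k1 : T ≤ (2 ^ L) ^ D := by
      rw [hT, ← pow_mul]
      refine Nat.pow_le_pow_right two_pos ?_
      have : L * 32040000 ≤ L * D := Nat.mul_le_mul_left _ hD.ge
      linarith
    calc (T : ℝ) ≤ (2 ^ L) ^ D := by exact_mod_cast k1
      _ ≤ _ := by gcongr
  have Tz : 8 * (T : ℝ) ^ 5 ≤ z := le_trans (by gcongr) h1
  have T3 : (T : ℝ) ^ 3 ≤ T ^ 5 := pow_le_pow_right₀ T1 (by omega)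
  have T5 : (T : ℝ) ≤ T ^ 5 := le_self_pow₀ T1 (by omega)
  have hx : z ^ 180 ≤ n / (2 * (T * z ^ 4) ^ 3) := by
    rw [le_div_iff₀ (by positivity), ← hz]
    calc z ^ 180 * (2 * (T * z ^ 4) ^ 3) = 2 * T ^ 3 * z ^ 192 := by ring
      _ ≤ z * z ^ 192 := by gcongr; linarith
      _ = z ^ 193 := by ring
      _ ≤ _ := pow_le_pow_right₀ z1 (by omega)
  have hlx : Real.log n / 2 ≤ Real.log (n / (2 * (T * z ^ 4) ^ 3)) := by
    refine le_trans ?_ (Real.log_le_log (by positivity) hx)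
    have := Real.log_nonneg z1
    rw [← hz, Real.log_pow, Real.log_pow]
    push_cast
    linarith
  have z4 : 64 * z ≤ z ^ 4 := by
    calc 64 * z = 4 ^ 3 * z := by norm_num
      _ ≤ z ^ 3 * z := by gcongr
      _ = _ := by ring
  obtain ⟨f, hf, f1, f2, hfa⟩ := hx₀ _ (h5.trans ((le_self_pow₀ z1 (by omega)).trans hx))
    (8 * T ^ 5) (z ^ 4) (by positivity) (by
      generalize Real.log (n / (2 * (T * z ^ 4) ^ 3)) = y at hlx
      have y0 : 0 < y := by linarith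
      have k1 : (T : ℝ) ≤ (6 * y) ^ D := Tle.trans (by gcongr 1; linarith)
      push_cast
      calc 8 * (T : ℝ) ^ 5 ≤ 8 * ((6 * y) ^ D) ^ 5 := by gcongr
        _ = 8 * 6 ^ (D * 5) * y ^ (5 * D) := by ring
        _ ≤ y * y ^ (5 * D) := by gcongr; linarith
        _ = _ := by ring)
    (h6.trans (le_self_pow₀ z1 (by omega))) (by push_cast; linarith) (le_trans (by
      push_cast
      calc (8 * (T : ℝ) ^ 5 * (z ^ 4) ^ 2) ^ 20 ≤ (z * (z ^ 4) ^ 2) ^ 20 := by gcongr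
        _ = _ := by ring) hx)
  have fT : 8 * T ^ 3 < f := by
    have : 8 * (T : ℝ) ^ 3 < f := by linarith
    exact_mod_cast this
  have T30 : 0 < T ^ 3 := by positivity
  obtain ⟨n', rfl⟩ := id hn
  have hσ : n' % (2 * T ^ 3) < 2 * T ^ 3 := Nat.mod_lt _ (by omega)
  obtain ⟨a, a1, a2, a3⟩ := residue (T := T) (n := 4 * n') (σ := n' % (2 * T ^ 3)) hf
    ⟨10 * t + 27, by rw [hT]; ring⟩ (by omega) ⟨2 * n', by ring⟩ (by omega) ((T * f) ^ 2)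
  obtain ⟨p, hp, p1, p2, p3⟩ := hfa a a1
  have hσ' : 4 * (n' % (2 * T ^ 3)) ≡ 4 * n' [MOD 8 * T ^ 3] := by
    rw [show 8 * T ^ 3 = 4 * (2 * T ^ 3) by ring]
    exact (Nat.mod_modEq _ _).mul_left' 4
  generalize 4 * n' = n at *
  have p0 : (1 : ℝ) ≤ p := by exact_mod_cast hp.pos
  rw [div_lt_iff₀ (by positivity)] at p2
  rw [le_div_iff₀ (by positivity)] at p3
  have f0 : (0 : ℝ) < f := by exact_mod_cast hf.pos
  obtain ⟨r, r1, r2⟩ := core hG hT t4 hf (by omega) rfl hn hp hσ.le hσ'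
    (((p1.of_mul_right _).add_right _).trans a2) (((p1.of_mul_left _).add_right _).trans a3)
    (by
      have : ((T : ℝ) * f) ^ 3 * (p + 1) ≤ n := by
        calc ((T : ℝ) * f) ^ 3 * (p + 1) ≤ (T * z ^ 4) ^ 3 * (2 * p) := by gcongr; linarith
          _ = p * (2 * (T * z ^ 4) ^ 3) := by ring
          _ ≤ _ := p3
      exact_mod_cast this)
    (by
      have : (n : ℝ) ≤ 2 ^ 25 * ((T : ℝ) * f) ^ 3 * (p + 1) := by
        calc (n : ℝ) ≤ 64 * p * (2 * (T * z ^ 4) ^ 3) := p2.le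
          _ ≤ 64 * (p + 1) * (2 * (T * (64 * f)) ^ 3) := by gcongr; linarith
          _ = _ := by ring
      exact_mod_cast this)
    (by
      have : ((T : ℝ) * f) ^ 31 ≤ n := by
        calc ((T : ℝ) * f) ^ 31 ≤ (z * z ^ 4) ^ 31 := by gcongr; linarith
          _ = z ^ 155 := by ring
          _ ≤ z ^ 200 := pow_le_pow_right₀ z1 (by omega)
          _ = _ := hz
      exact_mod_cast this)
  refine ⟨r, ?_, r1⟩
  have r3 : (T : ℝ) * f * n ≤ T * f * r + 4 * n := by exact_mod_cast r2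
  have k3 : 4 * (n : ℝ) ≤ T * f * z ^ 196 := by
    calc 4 * (n : ℝ) = 4 * z ^ 4 * z ^ 196 := by rw [← hz]; ring
      _ ≤ 4 * (64 * f) * z ^ 196 := by gcongr
      _ = 256 * f * z ^ 196 := by ring
      _ ≤ _ := by gcongr; linarith
  refine le_of_mul_le_mul_left ?_ (show (0 : ℝ) < T * f by positivity)
  rw [mul_sub]
  linarith

end Pool.Agent.MP_d8b1b3_co.H14
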